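import Pool.Agent.L0h18.CF.Defs
import Pool.Agent.Y95.Q.Form

/-!
# Discriminants and K3 surfaces

The first part is adapted from the starting file `Pool/Agent/Y95/Q/K3.lean`, without Hassett's theorem
on the rationality.
-/

set_option autoImplicit false

namespace Pool.Agent.L0h18.CF

open Pool.Agent.Y95.Q Pool.Agent.Y95.Q.H4

variable {X : CubicFourfold} {H : H4 X}

theorem comm (hH : IsHodgeLattice H) (u v : Fin 23 → ℤ) : H.ip u v = H.ip v u := by
  unfold ip
  rw [Finset.sum_comm]
  refine Finset.sum_congr rfl fun i _ => Finset.sum_congr rfl fun j _ => ?_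
  rw [hH.symm j i]
  ring

theorem nonneg (hH : IsHodgeLattice H) {v : Fin 23 → ℤ} (hv : H.IsHodge v) :
    0 ≤ H.ip v v := by
  by_cases h : v = 0
  · rw [h, ip_zero_left]
  · exact (hH.pos v hv h).le

theorem disc_comb (hH : IsHodgeLattice H) (m l : ℤ) (v : Fin 23 → ℤ) :
    H.disc (m • v + l • H.h) = m ^ 2 * H.disc v := by
  simp only [disc, ip_add_left, ip_add_right, ip_smul_left, ip_smul_right, hH.h_self,
    (comm hH) v H.h]
  ring

/-- `h` is primitive. -/
theorem h_prim (hH : IsHodgeLattice H) {g c : ℤ} {z : Fin 23 → ℤ} (hg : g ≠ 0)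
    (h : g • z = c • H.h) : ∃ c', c = g * c' ∧ z = c' • H.h := by
  have h1 : g ^ 2 * H.ip z z = 3 * c ^ 2 := by
    have := congrArg (fun t => H.ip t t) h
    simp only [ip_smul_left, ip_smul_right, hH.h_self] at this
    linarith
  have h2 : g ∣ c := by
    have h3 : g ^ 2 ∣ 3 * c ^ 2 := ⟨_, h1.symm⟩
    by_cases hc : c = 0
    · simp [hc]
    obtain ⟨d, hd, g', c', hcop, hg', hc'⟩ : ∃ d : ℤ, d ≠ 0 ∧ ∃ g' c' : ℤ,
        IsCoprime g' c' ∧ g = d * g' ∧ c = d * c' := by
      refine ⟨(Int.gcd g c : ℤ), ?_, ?_⟩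
      · have : Int.gcd g c ≠ 0 := by
          intro h0
          exact hg (Int.eq_zero_of_gcd_eq_zero_left h0)
        exact_mod_cast this
      · obtain ⟨g', hg'⟩ := Int.gcd_dvd_left g c
        obtain ⟨c', hc'⟩ := Int.gcd_dvd_right g c
        refine ⟨g', c', ?_, hg', hc'⟩
        have h0 : (Int.gcd g c : ℤ) ≠ 0 := by
          have : Int.gcd g c ≠ 0 := by
            intro h0
            exact hg (Int.eq_zero_of_gcd_eq_zero_left h0)
          exact_mod_cast this
        have hb := Int.gcd_eq_gcd_ab g c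
        refine ⟨Int.gcdA g c, Int.gcdB g c, ?_⟩
        apply mul_left_cancel₀ h0
        calc (Int.gcd g c : ℤ) * (Int.gcdA g c * g' + Int.gcdB g c * c')
            = ((Int.gcd g c : ℤ) * g') * Int.gcdA g c
              + ((Int.gcd g c : ℤ) * c') * Int.gcdB g c := by ring
          _ = g * Int.gcdA g c + c * Int.gcdB g c := by rw [← hg', ← hc']
          _ = (Int.gcd g c : ℤ) * 1 := by rw [← hb, mul_one]
    have h4 : g' ^ 2 ∣ 3 * c' ^ 2 := by
      obtain ⟨t, ht⟩ := h3
      refine ⟨t, ?_⟩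
      have hd2 : d ^ 2 ≠ 0 := pow_ne_zero 2 hd
      apply mul_left_cancel₀ hd2
      rw [hg', hc'] at ht
      linear_combination ht
    have h5 : g' ^ 2 ∣ 3 := by
      have : IsCoprime (g' ^ 2) (c' ^ 2) := hcop.pow
      exact this.dvd_of_dvd_mul_right h4
    have h6 : g' ^ 2 = 1 := by
      have hpos : 0 < g' ^ 2 := by
        have : g' ≠ 0 := by
          rintro rfl
          apply hg
          rw [hg', mul_zero]
        positivity
      have hle : g' ^ 2 ≤ 3 := Int.le_of_dvd (by norm_num) h5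
      have : |g'| < 2 := by
        by_contra hcon
        push Not at hcon
        have : 4 ≤ g' ^ 2 := by
          rw [← sq_abs]
          nlinarith
        linarith
      have h7 : g' = 1 ∨ g' = -1 ∨ g' = 0 := by
        rw [abs_lt] at this
        omega
      rcases h7 with h7 | h7 | h7
      · rw [h7]; norm_num
      · rw [h7]; norm_num
      · rw [h7] at hpos; norm_num at hpos
    have h8 : g' = 1 ∨ g' = -1 := by
      have : (g' - 1) * (g' + 1) = 0 := by linear_combination h6
      rcases mul_eq_zero.mp this with h | h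
      · left; omega
      · right; omega
    rcases h8 with h8 | h8
    · exact ⟨c', by rw [hg', hc', h8]; ring⟩
    · exact ⟨-c', by rw [hg', hc', h8]; ring⟩
  obtain ⟨c', hc'⟩ := h2
  refine ⟨c', hc', ?_⟩
  have h9 : g • (z - c' • H.h) = 0 := by
    rw [smul_sub, h, hc', mul_smul, sub_self]
  exact sub_eq_zero.mp ((smul_eq_zero.1 h9).resolve_left hg)

/-- Every `v` with positive discriminant gives a saturated group of rank two. -/
theorem exists_saturated (hH : IsHodgeLattice H) (v : Fin 23 → ℤ)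
    (hv : 0 < H.disc v) : ∃ (w : Fin 23 → ℤ) (m l : ℤ), 0 < m ∧ H.Saturated w ∧
      v = m • w + l • H.h := by
  classical
  let S : Set ℕ := {m | 0 < m ∧ ∃ (w : Fin 23 → ℤ) (l : ℤ), v = (m : ℤ) • w + l • H.h}
  have hS1 : (1 : ℕ) ∈ S := ⟨one_pos, v, 0, by simp⟩
  have hbound : ∀ m ∈ S, m ≤ (H.disc v).toNat := by
    rintro m ⟨hm, w, l, hw⟩
    have h1 : (m : ℤ) ^ 2 * H.disc w = H.disc v := by rw [hw, disc_comb hH]
    have hm' : (0 : ℤ) < m := by exact_mod_cast hm
    have h2 : 0 < H.disc w := by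
      by_contra hcon
      push Not at hcon
      have : (m : ℤ) ^ 2 * H.disc w ≤ 0 := mul_nonpos_of_nonneg_of_nonpos (by positivity) hcon
      linarith
    have h3 : (m : ℤ) ≤ H.disc v := by nlinarith
    have := Int.toNat_le_toNat h3
    simpa using this
  have hfin : S.Finite := Set.Finite.subset (Set.finite_Iic _) hbound
  obtain ⟨M, hMS, hMmax⟩ := hfin.exists_maximal ⟨1, hS1⟩
  obtain ⟨hM0, w, l, hw⟩ := hMS
  refine ⟨w, M, l, by exact_mod_cast hM0, ?_, hw⟩
  intro x k a b hk hx
  set g : ℤ := (Int.gcd k b : ℤ) with hg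
  have hg0 : g ≠ 0 := by
    have h0 : Int.gcd k b ≠ 0 := fun h0 => hk (Int.eq_zero_of_gcd_eq_zero_left h0)
    rw [hg]
    exact Int.natCast_ne_zero.mpr h0
  obtain ⟨k', hk'⟩ : g ∣ k := Int.gcd_dvd_left k b
  obtain ⟨b', hb'⟩ : g ∣ b := Int.gcd_dvd_right k b
  set r := Int.gcdB k b
  set s := Int.gcdA k b
  have hbez : g = k * s + b * r := Int.gcd_eq_gcd_ab k b
  have hu : g • (k' • (r • x + s • w) - w) = (r * a) • H.h := by
    have : g • (k' • (r • x + s • w) - w) = r • (k • x) + (k * s) • w - g • w := by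
      rw [hk']
      module
    rw [this, hx, hbez]
    module
  obtain ⟨c', hc1, hc2⟩ := h_prim hH hg0 hu
  have hk'ne : k' ≠ 0 := by
    rintro rfl
    exact hk (by rw [hk', mul_zero])
  have hw2 : w = k' • (r • x + s • w) - c' • H.h := by
    rw [← hc2]; abel
  have hk1 : k'.natAbs = 1 := by
    by_contra hcon
    have hpos : 0 < k'.natAbs := Int.natAbs_pos.mpr hk'ne
    have h2 : 1 < k'.natAbs := by omega
    have hmem : M * k'.natAbs ∈ S := by
      refine ⟨Nat.mul_pos hM0 hpos, ?_⟩
      have hsgn : (k'.natAbs : ℤ) * k'.sign = k' := by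
        rw [mul_comm]; exact Int.sign_mul_natAbs k'
      refine ⟨k'.sign • (r • x + s • w), l - M * c', ?_⟩
      have hv2 : v = (M : ℤ) • (k' • (r • x + s • w) - c' • H.h) + l • H.h := by
        rw [← hw2]; exact hw
      have hcast : ((M * k'.natAbs : ℕ) : ℤ) • (k'.sign • (r • x + s • w))
          = (M : ℤ) • (k' • (r • x + s • w)) := by
        rw [Nat.cast_mul, smul_smul, mul_assoc, hsgn, mul_smul]
      rw [hcast, hv2, smul_sub, sub_smul, mul_smul]
      abel
    have h3 := hMmax hmem (Nat.le_mul_of_pos_right M hpos)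
    have h4 : M * 1 < M * k'.natAbs := Nat.mul_lt_mul_of_pos_left h2 hM0
    simp at h4
    omega
  have hk1' : k' = 1 ∨ k' = -1 := Int.natAbs_eq_iff.mp hk1 |> fun h => by simpa using h
  have hfin2 : ∀ β : ℤ, k • (x - β • w) = a • H.h → ∃ a' b' : ℤ, x = a' • H.h + b' • w := by
    intro β hβ
    obtain ⟨c2, _, h2⟩ := h_prim hH hk hβ
    exact ⟨c2, β, by rw [← h2]; abel⟩
  rcases hk1' with h1 | h1
  · apply hfin2 b'
    have : b = k * b' := by rw [hk', h1, hb']; ring
    rw [smul_sub, hx, this]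
    module
  · apply hfin2 (-b')
    have : b = k * (-b') := by rw [hk', h1, hb']; ring
    rw [smul_sub, hx, this]
    module

/-- small discriminants do not occur -/
theorem six_lt (hH : IsHodgeLattice H) {w : Fin 23 → ℤ} (hw : H.IsHodge w)
    (h0 : 0 < H.disc w) : 6 < H.disc w := by
  by_contra h6
  obtain ⟨c, hc⟩ := hH.char w
  set y := H.ip w H.h with hy
  have hy' : H.ip H.h w = y := (comm hH) _ _
  have hd : H.disc w = 3 * H.ip w w - y ^ 2 := by rw [disc, hy']
  have hsh : ∀ k : ℤ, H.ip (w - k • H.h) H.h = y - 3 * k := by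
    intro k
    rw [ip_sub_left, ip_smul_left, hH.h_self]
    ring
  have hss : ∀ k : ℤ, H.ip (w - k • H.h) (w - k • H.h) = H.ip w w - 2 * k * y + 3 * k ^ 2 := by
    intro k
    simp only [ip_sub_left, ip_sub_right, ip_smul_left, ip_smul_right, hH.h_self, hy', ← hy]
    ring
  have hHk : ∀ k : ℤ, H.IsHodge (w - k • H.h) := fun k =>
    H.isHodge_sub hw (H.isHodge_smul k hH.h_hodge)
  have hy3 : y % 3 = 0 ∨ y % 3 = 1 ∨ y % 3 = 2 := by omega
  have hyk : y = 3 * (y / 3) + y % 3 := (Int.mul_ediv_add_emod y 3).symm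
  generalize y / 3 = k at hyk
  have a1 := hsh k
  have a2 := hss k
  have a3 := hHk k
  have b1 := hsh (k + 1)
  have b2 := hss (k + 1)
  have b3 := hHk (k + 1)
  generalize w - k • H.h = u at a1 a2 a3
  generalize w - (k + 1) • H.h = u' at b1 b2 b3
  generalize H.ip w w = z at hc a2 b2 hd
  have hpos : 0 < 3 * z - y ^ 2 := hd ▸ h0
  have hle : 3 * z - y ^ 2 ≤ 6 := by
    rw [← hd]
    omega
  rcases hy3 with h | h | h
  · rw [h] at hyk
    -- `u.h = 0`, `3 u.u = disc`
    have e1 : H.ip u H.h = 0 := by rw [a1]; omega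
    have e2 : 3 * H.ip u u = 3 * z - y ^ 2 := by
      rw [a2, hyk]
      ring
    have e3 : Even (H.ip u u) := by
      have := hH.char u
      rwa [e1, sub_zero] at this
    obtain ⟨m, hm⟩ := e3
    have e4 : H.ip u u = 2 := by omega
    exact hH.disc_six u a3 e1 e4
  · rw [h] at hyk
    have e1 : H.ip u H.h = 1 := by rw [a1]; omega
    have e2 : 3 * H.ip u u - 1 = 3 * z - y ^ 2 := by
      rw [a2, hyk]
      ring
    have e3 : Even (H.ip u u - 1) := by
      have := hH.char u
      rwa [e1] at this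
    obtain ⟨m, hm⟩ := e3
    have e4 : H.ip u u = 1 := by omega
    exact hH.disc_two u a3 e1 e4
  · rw [h] at hyk
    have e1 : H.ip (-u') H.h = 1 := by rw [ip_neg_left, b1]; omega
    have e2 : 3 * H.ip (-u') (-u') - 1 = 3 * z - y ^ 2 := by
      rw [ip_neg_left, ip_neg_right, b2, hyk]
      ring
    have e3 : Even (H.ip (-u') (-u') - 1) := by
      have := hH.char (-u')
      rwa [e1] at this
    obtain ⟨m, hm⟩ := e3
    have e4 : H.ip (-u') (-u') = 1 := by omega
    exact hH.disc_two (-u') (H.isHodge_neg b3) e1 e4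


end Pool.Agent.L0h18.CF
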