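import Pool.Agent.Y95.Q.Defs

/-!
# Cubic fourfolds whose Hodge classes are generated by classes of small discriminant: definitions

`CubicFourfold`, `Plane`, `IsRational`, `H4`, `ip`, `IsHodge`, `rank`, `disc`, `Saturated`,
`Admissible` and `HasK3` are those of the starting library (`Pool/Agent/Y95/Q/Defs.lean`).
-/

set_option autoImplicit false

namespace Pool.Agent.L0h18.CF

open Pool.Agent.Y95.Q

variable {X : CubicFourfold}

/-- The properties of the group `H^4(X, ℤ)` which are used: the form is symmetric and unimodular,
and positive on the Hodge classes; `h ^ 2`, here called `h`, is a Hodge class of degree three and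
characteristic; there is no Hodge class `v` with `v.h = 1`, `v.v = 1` or with `v.h = 0`, `v.v = 2`
(the discriminants `2` and `6` do not occur); the classes of the planes are the Hodge classes with
`v.h = 1`, `v.v = 3`. -/
structure IsHodgeLattice (H : H4 X) : Prop where
  symm : ∀ i j, H.B i j = H.B j i
  unimodular : IsUnit H.B.det
  h_hodge : H.IsHodge H.h
  h_self : H.ip H.h H.h = 3
  char : ∀ v, Even (H.ip v v - H.ip v H.h)
  pos : ∀ v, H.IsHodge v → v ≠ 0 → 0 < H.ip v v
  disc_two : ∀ v, H.IsHodge v → H.ip v H.h = 1 → H.ip v v ≠ 1
  disc_six : ∀ v, H.IsHodge v → H.ip v H.h = 0 → H.ip v v ≠ 2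
  cl_range : ∀ v, (∃ P, H.cl P = v) ↔ H.IsHodge v ∧ H.ip v H.h = 1 ∧ H.ip v v = 3

/-- The known criteria for the rationality of `X`:
* there are a plane `P` in `X` and a Hodge class `T` such that `T.(h - P)` is odd (Hassett);
* there is a Hodge class of discriminant `14` (Fano, Beauville, Donagi, Bolognesi, Russo,
  Staglianò), `26`, `38` or `42` (Russo, Staglianò);
* there is a primitive Hodge class `z` with `z.z = 6`, so of discriminant `18`, and a primitive
  Hodge class `T` such that `T.z` is not divisible by three: then one of the fibrations of `X` by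
  sextic del Pezzo surfaces, with fibre class `2 h ± z`, has a multisection of degree prime to three
  (Addington, Hassett, Tschinkel, Várilly-Alvarado). -/
def Known (H : H4 X) : Prop :=
  (∃ (P : X.Plane) (T : Fin 23 → ℤ), H.IsHodge T ∧ Odd (H.ip T (H.h - H.cl P))) ∨
  (∃ v, H.IsHodge v ∧ H.disc v ∈ ({14, 26, 38, 42} : Set ℤ)) ∨
  (∃ z T, H.IsHodge z ∧ H.IsHodge T ∧ H.ip z H.h = 0 ∧ H.ip T H.h = 0 ∧ H.ip z z = 6 ∧
    ¬ 3 ∣ H.ip T z)

/-- The group of the Hodge classes is generated, up to an index prime to six, by the classes of
discriminant at most `d` (for example by `h`, which has discriminant zero, and the classes of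
planes, of discriminant `8`, and of cubic scrolls, of discriminant `12`): every Hodge class has a
multiple `n v`, with `n` prime to six, which is a combination of such classes. -/
def Generated (H : H4 X) (d : ℤ) : Prop :=
  ∀ v, H.IsHodge v → ∃ n : ℤ, IsCoprime n 6 ∧
    n • v ∈ Submodule.span ℤ {w | H.IsHodge w ∧ H.disc w ≤ d}

end Pool.Agent.L0h18.CF
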