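import Pool.Agent.L0h18.CF.Rep

/-!
# Cubic fourfolds whose Hodge classes are generated by classes of small discriminant
-/

set_option autoImplicit false

namespace Pool.Agent.L0h18.CF

open Pool.Agent.Y95.Q Pool.Agent.Y95.Q.H4

variable {X : CubicFourfold} {H : H4 X}

/-- the polar form of the discriminant -/
def bb (H : H4 X) (v w : Fin 23 → ℤ) : ℤ := 3 * H.ip v w - H.ip H.h v * H.ip H.h w

theorem disc_add (hH : IsHodgeLattice H) (v w : Fin 23 → ℤ) :
    H.disc (v + w) = H.disc v + H.disc w + 2 * bb H v w := by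
  simp only [disc, bb, ip_add_left, ip_add_right, comm hH w v]
  ring

theorem disc_sub (hH : IsHodgeLattice H) (v w : Fin 23 → ℤ) :
    H.disc (v - w) = H.disc v + H.disc w - 2 * bb H v w := by
  simp only [disc, bb, ip_sub_left, ip_sub_right, comm hH w v]
  ring

theorem disc_nonneg (hH : IsHodgeLattice H) {v : Fin 23 → ℤ} (hv : H.IsHodge v) :
    0 ≤ H.disc v := by
  have h1 := nonneg hH (H.isHodge_sub (H.isHodge_smul 3 hv)
    (H.isHodge_smul (H.ip H.h v) hH.h_hodge))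
  have h2 : H.ip ((3 : ℤ) • v - H.ip H.h v • H.h) ((3 : ℤ) • v - H.ip H.h v • H.h) =
      3 * H.disc v := by
    simp only [disc, ip_sub_left, ip_sub_right, ip_smul_left, ip_smul_right, hH.h_self,
      comm hH v H.h]
    ring
  rw [h2] at h1
  linarith

/-- the possible discriminants -/
theorem disc_even (hH : IsHodgeLattice H) (v : Fin 23 → ℤ) : ∃ c, H.disc v = 2 * c := by
  obtain ⟨c, hc⟩ := hH.char v
  rw [comm hH v H.h] at hc
  obtain ⟨e, he⟩ := Int.even_mul_pred_self (H.ip H.h v)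
  refine ⟨H.ip v v + c - e, ?_⟩
  simp only [disc]
  linear_combination hc - he

theorem disc_mod (v : Fin 23 → ℤ) : ∃ k r, H.ip H.h v = 3 * k + r ∧
    (r = 0 ∧ H.disc v % 3 = 0 ∨ (r = 1 ∨ r = -1) ∧ H.disc v % 3 = 2) := by
  have h3 : H.ip H.h v % 3 = 0 ∨ H.ip H.h v % 3 = 1 ∨ H.ip H.h v % 3 = 2 := by omega
  have hyk := (Int.mul_ediv_add_emod (H.ip H.h v) 3).symm
  generalize hk : H.ip H.h v / 3 = k at hyk
  have key : ∀ k r : ℤ, H.ip H.h v = 3 * k + r →
      H.disc v = 3 * (H.ip v v - 3 * k ^ 2 - 2 * k * r) - r ^ 2 := by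
    intro k r h
    rw [disc, h]
    ring
  rcases h3 with h | h | h
  · refine ⟨k, 0, by rw [h] at hyk; exact hyk, Or.inl ⟨rfl, ?_⟩⟩
    rw [key k 0 (by rw [h] at hyk; exact hyk)]
    omega
  · refine ⟨k, 1, by rw [h] at hyk; exact hyk, Or.inr ⟨Or.inl rfl, ?_⟩⟩
    rw [key k 1 (by rw [h] at hyk; exact hyk)]
    omega
  · refine ⟨k + 1, -1, by rw [h] at hyk; omega, Or.inr ⟨Or.inr rfl, ?_⟩⟩
    rw [key (k + 1) (-1) (by rw [h] at hyk; omega)]
    omega

/-- the facts on the discriminants if no criterion holds -/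
theorem facts (hH : IsHodgeLattice H) (hK : ¬ Known H) {v : Fin 23 → ℤ} (hv : H.IsHodge v) :
    0 ≤ H.disc v ∧ (∃ c, H.disc v = 2 * c) ∧ H.disc v % 3 ≠ 1 ∧ H.disc v ≠ 2 ∧ H.disc v ≠ 6 ∧
      H.disc v ≠ 14 ∧ H.disc v ≠ 26 ∧ H.disc v ≠ 38 ∧ H.disc v ≠ 42 := by
  have h1 := disc_nonneg hH hv
  obtain ⟨k, r, -, h2⟩ := disc_mod (H := H) v
  have h3 : 0 < H.disc v → 6 < H.disc v := six_lt hH hv
  have h4 : ∀ d ∈ ({14, 26, 38, 42} : Set ℤ), H.disc v ≠ d := by
    intro d hd h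
    exact hK (Or.inr (Or.inl ⟨v, hv, by rw [h]; exact hd⟩))
  refine ⟨h1, disc_even hH v, by omega, by omega, by omega, h4 14 (by simp), h4 26 (by simp),
    h4 38 (by simp), h4 42 (by simp)⟩

/-! ### A plane -/

/-- the product with a plane -/
theorem bb_plane (hH : IsHodgeLattice H) (hK : ¬ Known H) (P : X.Plane) {v : Fin 23 → ℤ}
    (hv : H.IsHodge v) (h3 : H.disc v % 3 = 0) : ∃ j, bb H (H.cl P) v = 6 * j := by
  obtain ⟨hP1, hP2, hP3⟩ := (hH.cl_range _).1 ⟨P, rfl⟩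
  have h1 : ¬ Odd (H.ip v (H.h - H.cl P)) := fun h => hK (Or.inl ⟨P, v, hv, h⟩)
  rw [Int.not_odd_iff_even, ip_sub_right, comm hH v H.h, comm hH v (H.cl P)] at h1
  obtain ⟨c, hc⟩ := h1
  obtain ⟨k, r, hk, h⟩ := disc_mod (H := H) v
  have hr : r = 0 := by omega
  have hhP : H.ip H.h (H.cl P) = 1 := (comm hH _ _).trans hP2
  have h2 : bb H (H.cl P) v = 3 * H.ip (H.cl P) v - H.ip H.h v := by
    rw [bb, hhP, one_mul]
  rw [hr, add_zero] at hk
  -- `h.v = 3 k`, `P.v = h.v - 2 c`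
  refine ⟨k - c, ?_⟩
  rw [h2]
  linarith

/-- if `X` contains a plane then the small discriminants are divisible by four -/
theorem four_dvd_of_le (hH : IsHodgeLattice H) (hK : ¬ Known H) (P : X.Plane)
    {v : Fin 23 → ℤ} (hv : H.IsHodge v) (hle : H.disc v ≤ 42) : 4 ∣ H.disc v := by
  obtain ⟨f1, ⟨c, f2⟩, f3, f4, f5, f6, f7, f8, f9⟩ := facts hH hK hv
  obtain ⟨hP1, hP2, hP3⟩ := (hH.cl_range _).1 ⟨P, rfl⟩
  have hhP : H.ip H.h (H.cl P) = 1 := (comm hH _ _).trans hP2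
  have hdP : H.disc (H.cl P) = 8 := by
    rw [disc, hP3, hhP]; norm_num
  have key : H.disc v ≠ 18 ∧ H.disc v ≠ 30 := by
    by_contra hcon
    have h3 : H.disc v % 3 = 0 := by omega
    obtain ⟨j, hj⟩ := bb_plane hH hK P hv h3
    have h4 := disc_add hH (H.cl P) v
    have h5 := disc_sub hH (H.cl P) v
    obtain ⟨a1, ⟨c1, a2⟩, a3, a4, a5, a6, a7, a8, a9⟩ := facts hH hK (H.isHodge_add hP1 hv)
    obtain ⟨b1, ⟨c2, b2⟩, b3, b4, b5, b6, b7, b8, b9⟩ := facts hH hK (H.isHodge_sub hP1 hv)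
    rw [hdP, hj] at h4 h5
    omega
  omega

/-- extension of a property from generators to a bilinear form -/
theorem dvd_of_span {S : Set (Fin 23 → ℤ)} {f : (Fin 23 → ℤ) → (Fin 23 → ℤ) → ℤ} {n : ℤ}
    (hadd : ∀ u v w, f (u + v) w = f u w + f v w) (hsmul : ∀ (a : ℤ) u w, f (a • u) w = a * f u w)
    (hcomm : ∀ u v, f u v = f v u) (h : ∀ u ∈ S, ∀ v ∈ S, n ∣ f u v) {u v : Fin 23 → ℤ}
    (hu : u ∈ Submodule.span ℤ S) (hv : v ∈ Submodule.span ℤ S) : n ∣ f u v := by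
  have h0 : ∀ w, f 0 w = 0 := fun w => by
    have := hsmul 0 0 w
    rwa [zero_smul, zero_mul] at this
  have h1 : ∀ u ∈ S, n ∣ f v u := by
    intro u hu
    refine Submodule.span_induction (p := fun v _ => n ∣ f v u) (fun w hw => h w hw u hu) ?_ ?_ ?_ hv
    · rw [h0]; exact dvd_zero _
    · intro a b _ _ ha hb
      rw [hadd]; exact dvd_add ha hb
    · intro a b _ hb
      rw [hsmul]; exact hb.mul_left _
  refine Submodule.span_induction (p := fun u _ => n ∣ f u v) (fun w hw => ?_) ?_ ?_ ?_ hu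
  · rw [hcomm]; exact h1 w hw
  · rw [h0]; exact dvd_zero _
  · intro a b _ _ ha hb
    rw [hadd]; exact dvd_add ha hb
  · intro a b _ hb
    rw [hsmul]; exact hb.mul_left _

theorem bb_add (u v w : Fin 23 → ℤ) : bb H (u + v) w = bb H u w + bb H v w := by
  simp only [bb, ip_add_left, ip_add_right]
  ring

theorem bb_smul (a : ℤ) (u w : Fin 23 → ℤ) : bb H (a • u) w = a * bb H u w := by
  simp only [bb, ip_smul_left, ip_smul_right]
  ring

theorem bb_comm (hH : IsHodgeLattice H) (u v : Fin 23 → ℤ) : bb H u v = bb H v u := by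
  simp only [bb, comm hH v u]
  ring

/-- divisibility by four of all discriminants -/
theorem four_of_span (hH : IsHodgeLattice H) {S : Set (Fin 23 → ℤ)}
    (h : ∀ u ∈ S, ∀ v ∈ S, 2 ∣ bb H u v) (h4 : ∀ u ∈ S, 4 ∣ H.disc u) {u : Fin 23 → ℤ}
    (hu : u ∈ Submodule.span ℤ S) : 4 ∣ H.disc u := by
  refine Submodule.span_induction (p := fun u _ => 4 ∣ H.disc u) (fun w hw => h4 w hw) ?_ ?_ ?_ hu
  · simp [disc, ip_zero_right]
  · intro a b ha hb h1 h2
    have h3 := dvd_of_span (f := bb H) bb_add bb_smul (bb_comm hH) h ha hb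
    rw [disc_add hH]
    omega
  · intro a b _ hb
    have : H.disc (a • b) = a ^ 2 * H.disc b := by
      simp only [disc, ip_smul_left, ip_smul_right]; ring
    rw [this]
    exact hb.mul_left _

/-- division by a number prime to six -/
theorem dvd_of_mul {n m a : ℤ} (hn : IsCoprime n 6) (ha : a ∣ 6) (h : a ∣ n * m) : a ∣ m := by
  have h1 : IsCoprime a n := (hn.of_isCoprime_of_dvd_right ha).symm
  exact h1.dvd_of_dvd_mul_left h

theorem four_dvd_of_mul {n m : ℤ} (hn : IsCoprime n 6) (h : 4 ∣ n ^ 2 * m) : 4 ∣ m := by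
  have h1 : IsCoprime (2 : ℤ) n := (hn.of_isCoprime_of_dvd_right (by norm_num)).symm
  have h2 : IsCoprime (4 : ℤ) (n ^ 2) := by
    have : IsCoprime ((2 : ℤ) ^ 2) (n ^ 2) := h1.pow
    norm_num at this
    exact this
  exact h2.dvd_of_dvd_mul_left h

theorem disc_smul (a : ℤ) (b : Fin 23 → ℤ) : H.disc (a • b) = a ^ 2 * H.disc b := by
  simp only [disc, ip_smul_left, ip_smul_right]; ring

/-- **The case of a plane.** -/
theorem plane_case (hH : IsHodgeLattice H) (hK : ¬ Known H) (P : X.Plane)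
    (hgen : Generated H 30) : (∀ u v, H.IsHodge u → H.IsHodge v → 2 ∣ bb H u v) ∧
      ∀ u, H.IsHodge u → 4 ∣ H.disc u := by
  have h1 : ∀ u, H.IsHodge u → H.disc u ≤ 30 → 4 ∣ H.disc u ∧ H.disc u ≤ 24 := by
    intro u hu hle
    have h2 := four_dvd_of_le hH hK P hu (by omega)
    obtain ⟨f1, f2, f3, -⟩ := facts hH hK hu
    omega
  have h2 : ∀ u ∈ {w | H.IsHodge w ∧ H.disc w ≤ 30}, ∀ v ∈ {w | H.IsHodge w ∧ H.disc w ≤ 30},
      2 ∣ bb H u v := by
    rintro u ⟨hu, hu'⟩ v ⟨hv, hv'⟩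
    obtain ⟨a1, a2⟩ := h1 u hu hu'
    obtain ⟨b1, b2⟩ := h1 v hv hv'
    have c1 := disc_add hH u v
    have c2 := disc_sub hH u v
    have d1 := four_dvd_of_le hH hK P (H.isHodge_add hu hv)
    have d2 := four_dvd_of_le hH hK P (H.isHodge_sub hu hv)
    obtain ⟨-, -, e1, -⟩ := facts hH hK (H.isHodge_add hu hv)
    obtain ⟨-, -, e2, -⟩ := facts hH hK (H.isHodge_sub hu hv)
    omega
  have h4 : ∀ u ∈ {w | H.IsHodge w ∧ H.disc w ≤ 30}, 4 ∣ H.disc u := fun u hu =>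
    (h1 u hu.1 hu.2).1
  refine ⟨fun u v hu hv => ?_, fun u hu => ?_⟩
  · obtain ⟨n, hn, hnu⟩ := hgen u hu
    obtain ⟨m, hm, hmv⟩ := hgen v hv
    have h5 := dvd_of_span (f := bb H) bb_add bb_smul (bb_comm hH) h2 hnu hmv
    rw [bb_smul, bb_comm hH u, bb_smul, bb_comm hH v] at h5
    exact dvd_of_mul hm (by norm_num) (dvd_of_mul hn (by norm_num) h5)
  · obtain ⟨n, hn, hnu⟩ := hgen u hu
    have h5 := four_of_span hH h2 h4 hnu
    rw [disc_smul] at h5
    exact four_dvd_of_mul hn h5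

end Pool.Agent.L0h18.CF
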