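import Pool.Agent.L0h18.CF.Scroll

/-!
# The two congruences: no K3 surface, and the bound for the rank
-/

set_option autoImplicit false

namespace Pool.Agent.L0h18.CF

open Pool.Agent.Y95.Q Pool.Agent.Y95.Q.H4 Finset Module

theorem exists_prime_two_mod : ∀ n : ℕ, n % 3 = 2 → ∃ p : ℕ, p.Prime ∧ p ∣ n ∧ p % 3 = 2 := by
  intro n
  induction n using Nat.strong_induction_on with
  | _ n ih =>
    intro h
    have hn : n ≠ 1 := by rintro rfl; norm_num at h
    have hp := Nat.minFac_prime hn
    obtain ⟨m, hm⟩ := Nat.minFac_dvd n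
    by_cases h2 : n.minFac % 3 = 2
    · exact ⟨_, hp, Nat.minFac_dvd n, h2⟩
    have hmod : n % 3 = (n.minFac % 3) * (m % 3) % 3 := by
      conv_lhs => rw [hm]
      rw [Nat.mul_mod]
    have h1 : n.minFac % 3 = 0 ∨ n.minFac % 3 = 1 := by omega
    rcases h1 with h1 | h1
    · rw [h1, zero_mul] at hmod
      omega
    · rw [h1, one_mul] at hmod
      have hm2 : m % 3 = 2 := by omega
      have hlt : m < n := by
        have : 2 ≤ n.minFac := hp.two_le
        have hm0 : 0 < m := by
          rcases Nat.eq_zero_or_pos m with h | h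
          · rw [h] at hm2; norm_num at hm2
          · exact h
        calc m < n.minFac * m := by nlinarith
          _ = n := hm.symm
      obtain ⟨p, hp1, hp2, hp3⟩ := ih m hlt hm2
      exact ⟨p, hp1, hp2.trans (Dvd.intro_left _ hm.symm), hp3⟩

variable {X : CubicFourfold} {H : H4 X}

theorem not_hasK3_four (h : ∀ u, H.IsHodge u → 4 ∣ H.disc u) : ¬ H.HasK3 := by
  rintro ⟨v, hv, -, hd⟩
  exact hd.2.1 (h v hv)

theorem not_hasK3_three (hH : IsHodgeLattice H) (h3 : ∀ u, H.IsHodge u → 3 ∣ H.ip H.h u)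
    {c : Fin 23 → ℤ}
    (hc : ∀ u v, H.IsHodge u → H.IsHodge v → 3 ∣ H.ip u v - H.ip u c * H.ip v c) :
    ¬ H.HasK3 := by
  rintro ⟨v, hv, -, hd1, hd2, hd3, hd4⟩
  obtain ⟨k, hk⟩ := h3 v hv
  have h1 := hc v v hv hv
  obtain ⟨e, he⟩ := hH.char v
  rw [comm hH v H.h, hk] at he
  obtain ⟨q, hq⟩ := Int.even_mul_succ_self k
  have hd : H.disc v = 3 * H.ip v v - 9 * k ^ 2 := by rw [disc, hk]; ring
  -- `disc = 6 m`
  obtain ⟨m, hm⟩ : ∃ m, H.disc v = 6 * m := by
    refine ⟨e + 3 * k - 3 * q, ?_⟩
    rw [hd]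
    linear_combination 3 * he - 9 * hq
  have hs : ¬ 3 ∣ H.ip v c := by
    intro hs
    apply hd3
    have h4 : 3 ∣ H.ip v v := by
      have h5 : 3 ∣ H.ip v c * H.ip v c := hs.mul_right _
      have := dvd_add h1 h5
      rwa [sub_add_cancel] at this
    obtain ⟨t, ht⟩ := h4
    exact ⟨t - k ^ 2, by rw [hd, ht]; ring⟩
  have hm3 : m % 3 = 2 := by
    have h5 : H.ip v c % 3 = 1 ∨ H.ip v c % 3 = 2 := by omega
    have h6 : (H.ip v c * H.ip v c) % 3 = 1 := by
      rcases h5 with h | h <;> rw [Int.mul_emod, h] <;> norm_num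
    have h7 : 2 * m = H.ip v v - 3 * k ^ 2 := by
      have : 6 * m = 3 * (H.ip v v - 3 * k ^ 2) := by rw [← hm, hd]; ring
      linarith
    generalize H.ip v c * H.ip v c = s at h1 h6
    omega
  have hm0 : 1 < m := by omega
  have hmo : m % 2 = 1 := by
    by_contra hcon
    apply hd2
    have : ∃ r, m = 2 * r := ⟨m / 2, by omega⟩
    obtain ⟨r, hr⟩ := this
    exact ⟨3 * r, by rw [hm, hr]; ring⟩
  obtain ⟨p, hp, hpm, hp3⟩ := exists_prime_two_mod m.toNat (by omega)
  have hpm' : (p : ℤ) ∣ m := by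
    have : (m.toNat : ℤ) = m := Int.toNat_of_nonneg (by omega)
    rw [← this]
    exact_mod_cast hpm
  refine hd4 p hp ?_ (by rw [hm]; exact hpm'.mul_left _) hp3
  rintro rfl
  obtain ⟨r, hr⟩ := hpm'
  push_cast at hr
  omega

/-! ### The rank -/

section rank

variable (p : ℕ) [Fact p.Prime]

/-- reduction modulo `p` -/
def redp : (Fin 23 → ℤ) →+ (Fin 23 → ZMod p) where
  toFun v i := (v i : ZMod p)
  map_zero' := by ext i; simp
  map_add' u v := by ext i; simp

theorem redp_apply (v : Fin 23 → ℤ) (i : Fin 23) : redp p v i = (v i : ZMod p) := rfl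

theorem redp_smul (n : ℤ) (v : Fin 23 → ℤ) : redp p (n • v) = (n : ZMod p) • redp p v := by
  ext i
  simp [redp_apply]

theorem exists_div {v : Fin 23 → ℤ} (h : redp p v = 0) : ∃ w, v = (p : ℤ) • w := by
  refine ⟨fun i => v i / p, ?_⟩
  ext i
  have h1 : (v i : ZMod p) = 0 := congrFun h i
  have h2 : (p : ℤ) ∣ v i := (ZMod.intCast_zmod_eq_zero_iff_dvd (v i) p).1 h1
  rw [Pi.smul_apply, smul_eq_mul]
  exact (Int.mul_ediv_cancel' h2).symm

/-- the group of Hodge classes -/
def hodge (H : H4 X) : Submodule ℤ (Fin 23 → ℤ) where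
  carrier := {v | H.IsHodge v}
  add_mem' := H.isHodge_add
  zero_mem' := H.isHodge_zero
  smul_mem' n _ := H.isHodge_smul n

theorem rank_eq : H.rank = finrank ℤ (hodge H) := by
  have h1 : Submodule.span ℤ {v | H.IsHodge v} = hodge H := Submodule.span_eq (hodge H)
  unfold H4.rank
  rw [h1]

/-- a basis of the group of the Hodge classes is independent modulo `p` -/
theorem basis_indep {r : ℕ} (b : Basis (Fin r) ℤ (hodge H)) :
    LinearIndependent (ZMod p) fun i => redp p (b i : Fin 23 → ℤ) := by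
  classical
  have hp := (Fact.out : p.Prime)
  rw [Fintype.linearIndependent_iff]
  intro c hc i
  let x : hodge H := ∑ i, ((c i).val : ℤ) • b i
  have h1 : redp p (x : Fin 23 → ℤ) = 0 := by
    rw [← hc]
    simp only [x, Submodule.coe_sum, Submodule.coe_smul, map_sum]
    refine sum_congr rfl fun i _ => ?_
    rw [redp_smul]
    congr 1
    simp
  obtain ⟨w, hw⟩ := exists_div p h1
  have hp0 : (p : ℤ) ≠ 0 := by exact_mod_cast hp.ne_zero
  have hwH : H.IsHodge w := H.isHodge_of_smul hp0 (by rw [← hw]; exact x.2)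
  let w' : hodge H := ⟨w, hwH⟩
  have h2 : x = (p : ℤ) • w' := Subtype.ext hw
  have h3 : b.repr x i = ((c i).val : ℤ) := by
    simp only [x, map_sum, map_smul, Finsupp.coe_finsetSum, Finset.sum_apply,
      Finsupp.smul_apply, Basis.repr_self, smul_eq_mul, Finsupp.single_apply]
    rw [Finset.sum_eq_single i]
    · simp
    · intro j _ hj
      simp [hj]
    · simp
  have h4 : b.repr x i = p * b.repr w' i := by
    rw [h2, map_smul, Finsupp.smul_apply, smul_eq_mul]
  have h5 : ((c i).val : ℤ) = p * b.repr w' i := h3.symm.trans h4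
  have h6 : (((c i).val : ℤ) : ZMod p) = c i := by simp
  rw [← h6, h5]
  push_cast
  rw [ZMod.natCast_self, zero_mul]

/-- **The bound for the rank.** If modulo `p` the form on the Hodge classes is the product of a
linear form with itself then the rank is at most twelve. -/
theorem rank_le (hH : IsHodgeLattice H) {c : Fin 23 → ℤ}
    (hc : ∀ u v, H.IsHodge u → H.IsHodge v → (p : ℤ) ∣ H.ip u v - H.ip u c * H.ip v c) :
    H.rank ≤ 12 := by
  classical
  let b := Module.finBasis ℤ (hodge H)
  let R : Matrix (Fin (finrank ℤ (hodge H))) (Fin 23) (ZMod p) :=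
    fun k => redp p (b k : Fin 23 → ℤ)
  let Bm : Matrix (Fin 23) (Fin 23) (ZMod p) := H.B.map (Int.castRingHom (ZMod p))
  have hRrank : R.rank = finrank ℤ (hodge H) := by
    have h1 : R.rank = Fintype.card (Fin (finrank ℤ (hodge H))) :=
      LinearIndependent.rank_matrix (basis_indep p b)
    rw [h1, Fintype.card_fin]
  have hker : finrank (ZMod p) (LinearMap.ker R.mulVecLin) + finrank ℤ (hodge H) = 23 := by
    have h1 := LinearMap.finrank_range_add_finrank_ker R.mulVecLin
    have h2 : finrank (ZMod p) (LinearMap.range R.mulVecLin) = finrank ℤ (hodge H) := hRrank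
    rw [h2, finrank_fin_fun] at h1
    omega
  have hBdet : IsUnit Bm.det := by
    have h1 : Bm.det = (Int.castRingHom (ZMod p)) H.B.det := by
      rw [RingHom.map_det]
      rfl
    rw [h1]
    exact hH.unimodular.map _
  have hBinj : Function.Injective Bm.mulVec := by
    rw [Matrix.mulVec_injective_iff_isUnit, Matrix.isUnit_iff_isUnit_det]
    exact hBdet
  -- the linear combinations of the basis on which the linear form vanishes
  let χ : (Fin (finrank ℤ (hodge H)) → ZMod p) →ₗ[ZMod p] ZMod p :=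
    { toFun := fun a => ∑ k, a k * ((H.ip (b k : Fin 23 → ℤ) c : ℤ) : ZMod p)
      map_add' := fun a a' => by simp only [Pi.add_apply, add_mul, sum_add_distrib]
      map_smul' := fun r a => by
        simp only [Pi.smul_apply, smul_eq_mul, mul_sum, mul_assoc, RingHom.id_apply] }
  have hχ : finrank ℤ (hodge H) ≤ finrank (ZMod p) (LinearMap.ker χ) + 1 := by
    have h1 := LinearMap.finrank_range_add_finrank_ker χ
    have h2 : finrank (ZMod p) (LinearMap.range χ) ≤ 1 := by
      have := Submodule.finrank_le (LinearMap.range χ)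
      rwa [finrank_self] at this
    rw [finrank_fin_fun] at h1
    omega
  -- the map to the orthogonal complement
  let L : (Fin (finrank ℤ (hodge H)) → ZMod p) →ₗ[ZMod p] (Fin 23 → ZMod p) :=
    Bm.mulVecLin ∘ₗ (Fintype.linearCombination (ZMod p) fun i => redp p (b i : Fin 23 → ℤ))
  have hLinj : Function.Injective L := by
    have h1 : Function.Injective (Fintype.linearCombination (ZMod p)
        fun i => redp p (b i : Fin 23 → ℤ)) :=
      LinearIndependent.fintypeLinearCombination_injective (basis_indep p b)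
    exact hBinj.comp h1
  have hmem : ∀ a ∈ LinearMap.ker χ, L a ∈ LinearMap.ker R.mulVecLin := by
    intro a ha
    rw [LinearMap.mem_ker] at ha ⊢
    ext j
    -- the product of `b j` and the combination
    have h1 : ∀ v : Fin 23 → ℤ, ∑ x, (b j : Fin 23 → ℤ) x * ∑ y, ((H.B x y : ℤ) : ZMod p) *
        (v y : ZMod p) = ((H.ip (b j : Fin 23 → ℤ) v : ℤ) : ZMod p) := by
      intro v
      simp only [ip, Int.cast_sum, Int.cast_mul, mul_sum, mul_assoc]
    have h2 : ∀ k, ((H.ip (b j : Fin 23 → ℤ) (b k : Fin 23 → ℤ) : ℤ) : ZMod p) =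
        ((H.ip (b j : Fin 23 → ℤ) c : ℤ) : ZMod p) * ((H.ip (b k : Fin 23 → ℤ) c : ℤ) : ZMod p) := by
      intro k
      have h3 := hc (b j) (b k) (b j).2 (b k).2
      rw [← ZMod.intCast_zmod_eq_zero_iff_dvd] at h3
      push_cast at h3
      exact sub_eq_zero.1 h3
    have h4 : R.mulVecLin (L a) j = ∑ k, a k *
        ((H.ip (b j : Fin 23 → ℤ) (b k : Fin 23 → ℤ) : ℤ) : ZMod p) := by
      have h5 : L a = ∑ k, a k • Bm.mulVec (redp p (b k : Fin 23 → ℤ)) := by
        simp only [L, LinearMap.comp_apply, Fintype.linearCombination_apply, map_sum, map_smul,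
          Matrix.mulVecLin_apply]
      rw [h5, map_sum, Finset.sum_apply]
      refine sum_congr rfl fun k _ => ?_
      rw [map_smul, Pi.smul_apply, smul_eq_mul]
      congr 1
      exact h1 (b k)
    rw [h4, Pi.zero_apply]
    simp only [h2]
    have h6 : ∑ k, a k * (((H.ip (b j : Fin 23 → ℤ) c : ℤ) : ZMod p) *
        ((H.ip (b k : Fin 23 → ℤ) c : ℤ) : ZMod p)) =
        ((H.ip (b j : Fin 23 → ℤ) c : ℤ) : ZMod p) * χ a := by
      change _ = _ * ∑ k, a k * ((H.ip (b k : Fin 23 → ℤ) c : ℤ) : ZMod p)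
      rw [mul_sum]
      exact sum_congr rfl fun k _ => by ring
    rw [h6, ha, mul_zero]
  have hle : finrank (ZMod p) (LinearMap.ker χ) ≤ finrank (ZMod p) (LinearMap.ker R.mulVecLin) := by
    let g : LinearMap.ker χ →ₗ[ZMod p] LinearMap.ker R.mulVecLin :=
      (L.comp (LinearMap.ker χ).subtype).codRestrict _ fun a => hmem a a.2
    refine LinearMap.finrank_le_finrank_of_injective (f := g) ?_
    intro a a' h
    have h1 : L a = L a' := congrArg Subtype.val h
    exact Subtype.ext (hLinj h1)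
  rw [rank_eq]
  omega

end rank

end Pool.Agent.L0h18.CF
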