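import Pool.Agent.L0h18.CF.Base

/-!
# Classes whose discriminant is twice a primitive norm from the Eisenstein integers
-/

set_option autoImplicit false

namespace Pool.Agent.L0h18.CF

open Pool.Agent.Y95.Q Pool.Agent.Y95.Q.H4

section arith

theorem four_ndvd {a d x y : ℤ} (h : a ^ 2 * d = 2 * (x ^ 2 + x * y + y ^ 2))
    (hxy : IsCoprime x y) : ¬ 4 ∣ d := by
  rintro ⟨e, rfl⟩
  have h1 : x ^ 2 + x * y + y ^ 2 = 2 * (a ^ 2 * e) := by linarith
  have h2 : Even (x ^ 2 + x * y + y ^ 2) := ⟨a ^ 2 * e, by rw [h1]; ring⟩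
  rcases Int.even_or_odd x with hx | hx <;> rcases Int.even_or_odd y with hy | hy
  · obtain ⟨u, v, huv⟩ := hxy
    have : Even (1 : ℤ) := by
      rw [← huv]
      exact (hx.mul_left u).add (hy.mul_left v)
    exact absurd this (by decide)
  all_goals
    have := h2
    simp only [Int.even_add, Int.even_mul, Int.even_pow, ← Int.not_even_iff_odd] at *
    tauto

theorem nine_ndvd {a d x y : ℤ} (h : a ^ 2 * d = 2 * (x ^ 2 + x * y + y ^ 2))
    (hxy : IsCoprime x y) : ¬ 9 ∣ d := by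
  rintro ⟨e, rfl⟩
  have h1 : (9 : ℤ) ∣ 2 * (x ^ 2 + x * y + y ^ 2) := ⟨a ^ 2 * e, by rw [← h]; ring⟩
  have h2 : (9 : ℤ) ∣ x ^ 2 + x * y + y ^ 2 :=
    IsCoprime.dvd_of_dvd_mul_left (by norm_num) h1
  have key : ∀ x y : ZMod 9, x ^ 2 + x * y + y ^ 2 = 0 → 3 * x = 0 ∧ 3 * y = 0 := by decide
  have h3 := (ZMod.intCast_zmod_eq_zero_iff_dvd _ 9).2 h2
  push_cast at h3
  obtain ⟨hx, hy⟩ := key _ _ h3
  have hx' : (9 : ℤ) ∣ 3 * x := by
    rw [← Nat.cast_ofNat (n := 9), ← ZMod.intCast_zmod_eq_zero_iff_dvd]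
    push_cast
    exact hx
  have hy' : (9 : ℤ) ∣ 3 * y := by
    rw [← Nat.cast_ofNat (n := 9), ← ZMod.intCast_zmod_eq_zero_iff_dvd]
    push_cast
    exact hy
  have hx3 : (3 : ℤ) ∣ x := by omega
  have hy3 : (3 : ℤ) ∣ y := by omega
  have := hxy.isUnit_of_dvd' hx3 hy3
  rw [Int.isUnit_iff] at this
  omega

theorem prime_two_mod {a d x y : ℤ} (h : a ^ 2 * d = 2 * (x ^ 2 + x * y + y ^ 2))
    (hxy : IsCoprime x y) {p : ℕ} (hp : p.Prime) (hp2 : p ≠ 2) (hd : (p : ℤ) ∣ d) :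
    p % 3 ≠ 2 := by
  have : Fact p.Prime := ⟨hp⟩
  intro h3
  have h1 : (p : ℤ) ∣ 2 * (x ^ 2 + x * y + y ^ 2) := h ▸ hd.mul_left _
  have h2 := (ZMod.intCast_zmod_eq_zero_iff_dvd _ p).2 h1
  push_cast at h2
  obtain ⟨u, v, huv⟩ := hxy
  have huv' : (u : ZMod p) * x + v * y = 1 := by exact_mod_cast congrArg (Int.cast (R := ZMod p)) huv
  generalize (x : ZMod p) = X at h2 huv'
  generalize (y : ZMod p) = Y at h2 huv'
  have h20 : (2 : ZMod p) ≠ 0 := by
    intro h4
    have h5 : ((2 : ℕ) : ZMod p) = 0 := by exact_mod_cast h4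
    rw [ZMod.natCast_eq_zero_iff] at h5
    exact hp2 ((Nat.prime_dvd_prime_iff_eq hp Nat.prime_two).1 h5)
  have h4 : X ^ 2 + X * Y + Y ^ 2 = 0 := (mul_eq_zero.1 h2).resolve_left h20
  have hY : Y ≠ 0 := by
    rintro rfl
    have : X = 0 := by
      have : X ^ 2 = 0 := by linear_combination h4
      exact pow_eq_zero_iff two_ne_zero |>.1 this
    rw [this] at huv'
    simp at huv'
  obtain ⟨t, ht⟩ : ∃ t : ZMod p, X = t * Y := ⟨X / Y, by field_simp⟩
  have h4' : t ^ 2 + t + 1 = 0 := by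
    have h5 : Y ^ 2 * (t ^ 2 + t + 1) = 0 := by
      rw [ht] at h4
      linear_combination h4
    exact (mul_eq_zero.1 h5).resolve_left (pow_ne_zero 2 hY)
  have h5 : t ^ 3 = 1 := by linear_combination (t - 1) * h4'
  have h6 : t ≠ 1 := by
    intro h7
    rw [h7] at h4'
    have h8 : ((3 : ℕ) : ZMod p) = 0 := by
      push_cast
      linear_combination h4'
    rw [ZMod.natCast_eq_zero_iff] at h8
    have h9 := (Nat.prime_dvd_prime_iff_eq hp Nat.prime_three).1 h8
    rw [h9] at h3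
    norm_num at h3
  have h7 : t ≠ 0 := by
    intro h8
    rw [h8] at h4'
    simp at h4'
  have h8 : orderOf t = 3 := orderOf_eq_prime h5 h6
  have h9 := ZMod.orderOf_dvd_card_sub_one h7
  rw [h8] at h9
  have := hp.two_le
  omega

end arith

variable {X : CubicFourfold} {H : H4 X}

/-- A class whose discriminant is twice a primitive norm gives a K3 surface. -/
theorem hasK3_of_rep (hH : IsHodgeLattice H) {v : Fin 23 → ℤ} (hv : H.IsHodge v) {x y : ℤ}
    (hd : H.disc v = 2 * (x ^ 2 + x * y + y ^ 2)) (hxy : IsCoprime x y) : H.HasK3 := by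
  have hpos : 0 < H.disc v := by
    rw [hd]
    have h1 : 0 ≤ x ^ 2 + x * y + y ^ 2 := by nlinarith [sq_nonneg (x + y), sq_nonneg x, sq_nonneg y]
    have h2 : x ^ 2 + x * y + y ^ 2 ≠ 0 := by
      intro h0
      have hx : x = 0 := by nlinarith [sq_nonneg (x + 2 * y), sq_nonneg x]
      have hy : y = 0 := by nlinarith [sq_nonneg (y + 2 * x), sq_nonneg y]
      rw [hx, hy] at hxy
      exact not_isCoprime_zero_zero hxy
    have h3 : 0 < x ^ 2 + x * y + y ^ 2 := lt_of_le_of_ne h1 h2.symm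
    linarith
  obtain ⟨w, m, l, hm, hsat, hw⟩ := exists_saturated hH _ hpos
  have hwH : H.IsHodge w := by
    refine H.isHodge_of_smul hm.ne' ?_
    have h1 : m • w = v - l • H.h := by
      rw [hw]
      abel
    rw [h1]
    exact H.isHodge_sub hv (H.isHodge_smul _ hH.h_hodge)
  have hmw : m ^ 2 * H.disc w = 2 * (x ^ 2 + x * y + y ^ 2) := by
    rw [← hd, hw, disc_comb hH]
  have hw0 : 0 < H.disc w := by
    by_contra hcon
    push Not at hcon
    have : m ^ 2 * H.disc w ≤ 0 := mul_nonpos_of_nonneg_of_nonpos (by positivity) hcon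
    rw [hmw, ← hd] at this
    linarith
  exact ⟨w, hwH, hsat, six_lt hH hwH hw0, four_ndvd hmw hxy, nine_ndvd hmw hxy,
    fun p hp hp2 hd => prime_two_mod hmw hxy hp hp2 hd⟩

/-- the discriminants for which all cubic fourfolds are known to be rational -/
theorem hasK3_of_mem (hH : IsHodgeLattice H) {v : Fin 23 → ℤ} (hv : H.IsHodge v)
    (hd : H.disc v ∈ ({14, 26, 38, 42} : Set ℤ)) : H.HasK3 := by
  simp only [Set.mem_insert_iff, Set.mem_singleton_iff] at hd
  rcases hd with hd | hd | hd | hd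
  · exact hasK3_of_rep hH hv (x := 2) (y := 1) (by rw [hd]; norm_num) isCoprime_one_right
  · exact hasK3_of_rep hH hv (x := 3) (y := 1) (by rw [hd]; norm_num) isCoprime_one_right
  · exact hasK3_of_rep hH hv (x := 3) (y := 2) (by rw [hd]; norm_num) (by norm_num)
  · exact hasK3_of_rep hH hv (x := 4) (y := 1) (by rw [hd]; norm_num) isCoprime_one_right

/-- a plane and an odd class -/
theorem hasK3_of_odd (hH : IsHodgeLattice H) {P T : Fin 23 → ℤ} (hP1 : H.IsHodge P)
    (hP2 : H.ip P H.h = 1) (hP3 : H.ip P P = 3)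
    (hT : H.IsHodge T) (hodd : Odd (H.ip T (H.h - P))) : H.HasK3 := by
  set b : ℤ := 3 * H.ip P T - H.ip H.h T with hb
  have hbo : Odd b := by
    rw [ip_sub_right, comm hH T H.h, comm hH T P] at hodd
    have h1 : b = (H.ip H.h T - H.ip P T) + 2 * (2 * H.ip P T - H.ip H.h T) := by
      rw [hb]
      ring
    rw [h1]
    exact hodd.add_even (even_two_mul _)
  obtain ⟨i, hi⟩ := hbo
  set j : ℤ := i ^ 2 + i with hj
  have hbj : b * b = 4 * j + 1 := by
    rw [hi, hj]
    ring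
  obtain ⟨c, hc⟩ : Even (H.disc (b • T)) := by
    have h1 := hH.char (b • T)
    have h2 : H.ip (b • T) H.h = H.ip H.h (b • T) := comm hH _ _
    rw [h2] at h1
    have h3 : H.disc (b • T) = 2 * H.ip (b • T) (b • T) +
        (H.ip (b • T) (b • T) - H.ip H.h (b • T)) +
        (H.ip H.h (b • T) - H.ip H.h (b • T) ^ 2) := by
      simp only [disc]; ring
    rw [h3]
    refine Even.add (Even.add (even_two_mul _) h1) ?_
    have h4 : H.ip H.h (b • T) - H.ip H.h (b • T) ^ 2 =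
        -(H.ip H.h (b • T) * (H.ip H.h (b • T) - 1)) := by ring
    rw [h4]
    exact (Int.even_mul_pred_self _).neg
  set x : ℤ := c - 1 - j - j ^ 2 with hx
  set n : ℤ := 2 * x + j with hn
  have hv : H.disc (x • P + b • T) = 2 * (n ^ 2 + n * 1 + 1 ^ 2) := by
    have h1 : H.disc (x • P + b • T) = 8 * x ^ 2 + 2 * x * (b * b) + H.disc (b • T) := by
      have hhP : H.ip H.h P = 1 := (comm hH _ _).trans hP2
      simp only [disc, ip_add_left, ip_add_right, ip_smul_left, ip_smul_right, hP3, hhP,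
        comm hH T P, hb]
      ring
    rw [h1, hbj, hc, hn, hx]
    ring
  exact hasK3_of_rep hH (H.isHodge_add (H.isHodge_smul _ hP1) (H.isHodge_smul _ hT)) hv
    isCoprime_one_right

/-- a class of square six and a class with product prime to three -/
theorem hasK3_of_six (hH : IsHodgeLattice H) {z T : Fin 23 → ℤ} (hz : H.IsHodge z)
    (hT : H.IsHodge T) (hzh : H.ip z H.h = 0) (hTh : H.ip T H.h = 0) (hzz : H.ip z z = 6)
    (hTz : ¬ 3 ∣ H.ip T z) : H.HasK3 := by
  -- discriminant of a combination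
  obtain ⟨t, ht⟩ : Even (H.ip T T) := by
    have := hH.char T
    rwa [hTh, sub_zero] at this
  set b := H.ip T z with hb
  have hdisc : ∀ m n : ℤ, H.disc (m • z + n • T) = 6 * (3 * m ^ 2 + b * (m * n) + t * n ^ 2) := by
    intro m n
    have h1 : H.ip H.h z = 0 := (comm hH _ _).trans hzh
    have h2 : H.ip H.h T = 0 := (comm hH _ _).trans hTh
    have h3 : H.ip z T = b := comm hH _ _
    simp only [disc, ip_add_left, ip_add_right, ip_smul_left, ip_smul_right, hzz, h1, h2, h3, ht,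
      ← hb]
    ring
  have hmem : ∀ m n : ℤ, H.IsHodge (m • z + n • T) := fun m n =>
    H.isHodge_add (H.isHodge_smul _ hz) (H.isHodge_smul _ hT)
  -- `b = 3 k + e`
  obtain ⟨k, e, hbk, he⟩ : ∃ k e : ℤ, b = 3 * k + e ∧ (e = 1 ∨ e = -1) := by
    have : b % 3 = 1 ∨ b % 3 = 2 := by omega
    rcases this with h | h
    · exact ⟨b / 3, 1, by omega, Or.inl rfl⟩
    · exact ⟨b / 3 + 1, -1, by omega, Or.inr rfl⟩
  have hcop : ∀ r : ℤ, IsCoprime (2 * r + 1) 2 := fun r => ⟨1, -r, by ring⟩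
  rcases Int.even_or_odd' k with ⟨q, hq | hq⟩
  · obtain ⟨w, hw⟩ := Int.even_mul_succ_self q
    have hw' : q ^ 2 = 2 * w - q := by linear_combination hw
    rcases Int.even_or_odd' t with ⟨s, hs | hs⟩
    · rcases he with he | he
      · refine hasK3_of_rep hH (hmem (-(3 * q ^ 2 + 3 * q + 1 - 2 * s)) 2)
          (x := -9 * q ^ 2 - 3 * q - 1 + 6 * s) (y := 2) ?_ ?_
        · rw [hdisc, hbk, he, hq, hs]
          ring
        · have h1 := hcop (-9 * w + 3 * q + 3 * s - 1)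
          have h2 : 2 * (-9 * w + 3 * q + 3 * s - 1) + 1 = -9 * q ^ 2 - 3 * q - 1 + 6 * s := by
            rw [hw']; ring
          rwa [h2] at h1
      · refine hasK3_of_rep hH (hmem (3 * q ^ 2 - 3 * q + 1 - 2 * s) 2)
          (x := 9 * q ^ 2 - 3 * q - 1 - 6 * s) (y := 2) ?_ ?_
        · rw [hdisc, hbk, he, hq, hs]
          ring
        · have h1 := hcop (9 * w - 6 * q - 3 * s - 1)
          have h2 : 2 * (9 * w - 6 * q - 3 * s - 1) + 1 = 9 * q ^ 2 - 3 * q - 1 - 6 * s := by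
            rw [hw']; ring
          rwa [h2] at h1
    · rcases he with he | he
      · refine hasK3_of_rep hH (hmem (3 * q ^ 2 - 2 * s) 1)
          (x := 9 * q ^ 2 - 6 * s + 3 * q - 1) (y := 2) ?_ ?_
        · rw [hdisc, hbk, he, hq, hs]
          ring
        · have h1 := hcop (9 * w - 3 * q - 3 * s - 1)
          have h2 : 2 * (9 * w - 3 * q - 3 * s - 1) + 1 = 9 * q ^ 2 - 6 * s + 3 * q - 1 := by
            rw [hw']; ring
          rwa [h2] at h1
      · refine hasK3_of_rep hH (hmem (-(3 * q ^ 2 - 2 * s)) 1)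
          (x := -9 * q ^ 2 + 6 * s + 3 * q - 1) (y := 2) ?_ ?_
        · rw [hdisc, hbk, he, hq, hs]
          ring
        · have h1 := hcop (-9 * w + 6 * q + 3 * s - 1)
          have h2 : 2 * (-9 * w + 6 * q + 3 * s - 1) + 1 = -9 * q ^ 2 + 6 * s + 3 * q - 1 := by
            rw [hw']; ring
          rwa [h2] at h1
  · rcases he with he | he
    · refine hasK3_of_rep hH (hmem ((3 * q + 1) ^ 2 - 3 * k * (3 * q + 1) + 3 * k ^ 2 - t) 1)
        (x := 3 * ((3 * q + 1) ^ 2 - 3 * k * (3 * q + 1) + 3 * k ^ 2 - t) + (3 * q + 1)) (y := 1)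
        ?_ isCoprime_one_right
      rw [hdisc, hbk, he, hq]
      ring
    · refine hasK3_of_rep hH (hmem (-((3 * q + 1) ^ 2 - 3 * k * (3 * q + 1) + 3 * k ^ 2 - t)) 1)
        (x := 3 * (-((3 * q + 1) ^ 2 - 3 * k * (3 * q + 1) + 3 * k ^ 2 - t)) + (3 * q + 1)) (y := 1)
        ?_ isCoprime_one_right
      rw [hdisc, hbk, he, hq]
      ring

/-- The known criteria for the rationality imply that there is an associated K3 surface. -/
theorem hasK3_of_known (hH : IsHodgeLattice H) (h : Known H) : H.HasK3 := by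
  rcases h with ⟨P, T, hT, hodd⟩ | ⟨v, hv, hd⟩ | ⟨z, T, hz, hT, h1, h2, h3, h4⟩
  · obtain ⟨hP1, hP2, hP3⟩ := (hH.cl_range _).1 ⟨P, rfl⟩
    exact hasK3_of_odd hH hP1 hP2 hP3 hT hodd
  · exact hasK3_of_mem hH hv hd
  · exact hasK3_of_six hH hz hT h1 h2 h3 h4

end Pool.Agent.L0h18.CF
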