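import Pool.Agent.L0h18.CF.Main

/-!
# The case without planes: the classes of square four and six
-/

set_option autoImplicit false

namespace Pool.Agent.L0h18.CF

open Pool.Agent.Y95.Q Pool.Agent.Y95.Q.H4

variable {X : CubicFourfold} {H : H4 X}

/-- primitive Hodge classes -/
def Pr (H : H4 X) (u : Fin 23 → ℤ) : Prop := H.IsHodge u ∧ H.ip u H.h = 0

theorem Pr.add {u v : Fin 23 → ℤ} (hu : Pr H u) (hv : Pr H v) : Pr H (u + v) :=
  ⟨H.isHodge_add hu.1 hv.1, by rw [ip_add_left, hu.2, hv.2]; rfl⟩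

theorem Pr.sub {u v : Fin 23 → ℤ} (hu : Pr H u) (hv : Pr H v) : Pr H (u - v) :=
  ⟨H.isHodge_sub hu.1 hv.1, by rw [ip_sub_left, hu.2, hv.2]; rfl⟩

theorem nn_add (hH : IsHodgeLattice H) (u v : Fin 23 → ℤ) :
    H.ip (u + v) (u + v) = H.ip u u + H.ip v v + 2 * H.ip u v := by
  simp only [ip_add_left, ip_add_right, comm hH v u]
  ring

theorem nn_sub (hH : IsHodgeLattice H) (u v : Fin 23 → ℤ) :
    H.ip (u - v) (u - v) = H.ip u u + H.ip v v - 2 * H.ip u v := by
  simp only [ip_sub_left, ip_sub_right, comm hH v u]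
  ring

/-- the facts on the squares of primitive classes if no criterion holds -/
theorem pfacts (hH : IsHodgeLattice H) (hK : ¬ Known H) {v : Fin 23 → ℤ} (hv : Pr H v) :
    0 ≤ H.ip v v ∧ (∃ c, H.ip v v = 2 * c) ∧ H.ip v v ≠ 2 ∧ H.ip v v ≠ 14 ∧
      (H.ip v v = 0 → v = 0) := by
  have h1 : H.disc v = 3 * H.ip v v := by
    rw [disc, comm hH H.h v, hv.2]; ring
  obtain ⟨-, -, -, -, -, -, -, -, f9⟩ := facts hH hK hv.1
  obtain ⟨c, hc⟩ := hH.char v
  rw [hv.2] at hc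
  refine ⟨nonneg hH hv.1, ⟨c, by omega⟩, hH.disc_six v hv.1 hv.2, by omega, fun h0 => ?_⟩
  by_contra hne
  exact absurd (hH.pos v hv.1 hne) (by omega)

theorem pzero_ip {u : Fin 23 → ℤ} (h : u = 0) (y : Fin 23 → ℤ) : H.ip u y = 0 := by
  rw [h, ip_zero_left]

/-- all products with classes of square six are divisible by three -/
def Three (H : H4 X) : Prop :=
  ∀ z, Pr H z → H.ip z z = 6 → ∀ y, H.IsHodge y → 3 ∣ H.ip z y

/-- the facts on a primitive class and its products -/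
theorem pf (hH : IsHodgeLattice H) (hK : ¬ Known H) (hT : Three H) {x y : Fin 23 → ℤ}
    (hx : Pr H x) (hy : H.IsHodge y) {N k : ℤ} (hN : H.ip x x = N) (hk : H.ip x y = k) :
    0 ≤ N ∧ N ≠ 2 ∧ N ≠ 14 ∧ (N = 6 → 3 ∣ k) ∧ (N = 0 → k = 0) := by
  obtain ⟨a1, -, a3, a4, a5⟩ := pfacts hH hK hx
  rw [hN] at a1 a3 a4 a5
  refine ⟨a1, a3, a4, fun h => ?_, fun h => ?_⟩
  · rw [← hk]
    exact hT x hx (hN.trans h) y hy
  · rw [← hk]
    exact pzero_ip (a5 h) y

theorem arith1 {uv uw uy vy wy : ℤ}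
    (h1 : 0 ≤ 8 + 2 * uv ∧ 8 + 2 * uv ≠ 2 ∧ 8 + 2 * uv ≠ 14 ∧ (8 + 2 * uv = 6 → 3 ∣ uy + vy) ∧
      (8 + 2 * uv = 0 → uy + vy = 0))
    (h2 : 0 ≤ 8 - 2 * uv ∧ 8 - 2 * uv ≠ 2 ∧ 8 - 2 * uv ≠ 14 ∧ (8 - 2 * uv = 6 → 3 ∣ uy - vy) ∧
      (8 - 2 * uv = 0 → uy - vy = 0))
    (h3 : 0 ≤ 8 + 2 * uw ∧ 8 + 2 * uw ≠ 2 ∧ 8 + 2 * uw ≠ 14 ∧ (8 + 2 * uw = 6 → 3 ∣ uy + wy) ∧
      (8 + 2 * uw = 0 → uy + wy = 0))
    (h4 : 0 ≤ 8 - 2 * uw ∧ 8 - 2 * uw ≠ 2 ∧ 8 - 2 * uw ≠ 14 ∧ (8 - 2 * uw = 6 → 3 ∣ uy - wy) ∧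
      (8 - 2 * uw = 0 → uy - wy = 0))
    (h3' : 8 + 2 * uw = 0 → uv + 1 = 0) (h4' : 8 - 2 * uw = 0 → uv - 1 = 0)
    (h5 : 14 + 2 * (uv + uw) ≠ 14 ∧ (14 + 2 * (uv + uw) = 6 → 3 ∣ vy + wy + uy))
    (h6 : 14 - 2 * (uv + uw) ≠ 14 ∧ (14 - 2 * (uv + uw) = 6 → 3 ∣ vy + wy - uy))
    (h7 : 3 ∣ vy - wy) (h8 : 3 ∣ uv - uw) : 3 ∣ uy - uv * vy := by
  have hr : uv = -4 ∨ uv = -2 ∨ uv = -1 ∨ uv = 0 ∨ uv = 1 ∨ uv = 2 ∨ uv = 4 := by
    have a1 := h1.1
    have a2 := h1.2.1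
    have a3 := h2.1
    have a4 := h2.2.1
    clear h1 h2 h3 h4 h5 h6 h3' h4'
    omega
  have hs : uw = -4 ∨ uw = -2 ∨ uw = -1 ∨ uw = 0 ∨ uw = 1 ∨ uw = 2 ∨ uw = 4 := by
    have a1 := h3.1
    have a2 := h3.2.1
    have a3 := h4.1
    have a4 := h4.2.1
    clear h1 h2 h3 h4 h5 h6 h3' h4'
    omega
  rcases hr with h | h | h | h | h | h | h <;> subst h <;>
    rcases hs with h | h | h | h | h | h | h <;> subst h
  all_goals try (norm_num at h8; done)
  all_goals try norm_num at h1 h2 h3 h4 h5 h6 h3' h4' ⊢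
  all_goals omega

/-- **An odd pair of classes of square four.** -/
theorem odd_pair (hH : IsHodgeLattice H) (hK : ¬ Known H) (hT : Three H) {v w : Fin 23 → ℤ}
    (hv : Pr H v) (hw : Pr H w) (hvv : H.ip v v = 4) (hww : H.ip w w = 4) (hvw : H.ip v w = 1)
    {u : Fin 23 → ℤ} (hu : Pr H u) (huu : H.ip u u = 4) {y : Fin 23 → ℤ} (hy : H.IsHodge y) :
    3 ∣ H.ip u y - H.ip u v * H.ip y v := by
  have z1 : H.ip (v - w) (v - w) = 6 := by rw [nn_sub hH, hvv, hww, hvw]; norm_num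
  have z2 : ∀ y, H.IsHodge y → 3 ∣ H.ip v y - H.ip w y := by
    intro y hy
    have := hT _ (hv.sub hw) z1 y hy
    rwa [ip_sub_left] at this
  have huw := z2 u hu.1
  rw [comm hH v u, comm hH w u] at huw
  rw [comm hH y v]
  have hwv : H.ip w v = 1 := (comm hH _ _).trans hvw
  have q0 : H.ip (v + w) (v + w) = 10 := by rw [nn_add hH, hvv, hww, hvw]; norm_num
  refine arith1 (uw := H.ip u w) (wy := H.ip w y)
    (pf hH hK hT (hu.add hv) hy (by rw [nn_add hH, huu, hvv]; norm_num) (ip_add_left H u v y))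
    (pf hH hK hT (hu.sub hv) hy (by rw [nn_sub hH, huu, hvv]; norm_num) (ip_sub_left H u v y))
    (pf hH hK hT (hu.add hw) hy (by rw [nn_add hH, huu, hww]; norm_num) (ip_add_left H u w y))
    (pf hH hK hT (hu.sub hw) hy (by rw [nn_sub hH, huu, hww]; norm_num) (ip_sub_left H u w y))
    ?_ ?_ ?_ ?_ (z2 y hy) huw
  · exact (pf hH hK hT (hu.add hw) hv.1 (by rw [nn_add hH, huu, hww]; norm_num)
      (by rw [ip_add_left, hwv])).2.2.2.2
  · exact (pf hH hK hT (hu.sub hw) hv.1 (by rw [nn_sub hH, huu, hww]; norm_num)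
      (by rw [ip_sub_left, hwv])).2.2.2.2
  · have := pf hH hK hT ((hv.add hw).add hu) hy (N := 14 + 2 * (H.ip u v + H.ip u w))
      (k := H.ip v y + H.ip w y + H.ip u y)
      (by rw [nn_add hH, q0, huu, comm hH (v + w) u, ip_add_right]; ring)
      (by rw [ip_add_left, ip_add_left])
    exact ⟨this.2.2.1, this.2.2.2.1⟩
  · have := pf hH hK hT ((hv.add hw).sub hu) hy (N := 14 - 2 * (H.ip u v + H.ip u w))
      (k := H.ip v y + H.ip w y - H.ip u y)
      (by rw [nn_sub hH, q0, huu, comm hH (v + w) u, ip_add_right]; ring)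
      (by rw [ip_sub_left, ip_add_left])
    exact ⟨this.2.2.1, this.2.2.2.1⟩

/-- no pair of classes of square four has product one -/
def NoOdd (H : H4 X) : Prop :=
  ∀ v w, Pr H v → Pr H w → H.ip v v = 4 → H.ip w w = 4 → H.ip v w ≠ 1

theorem zperp (hH : IsHodgeLattice H) (hT : Three H) (hno : NoOdd H) {z u : Fin 23 → ℤ}
    (hz : Pr H z) (hzz : H.ip z z = 6) (hu : Pr H u) (huu : H.ip u u = 4) : H.ip z u = 0 := by
  obtain ⟨k, hk⟩ := hT z hz hzz u hu.1
  have h1 := nonneg hH (hz.add hu).1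
  have h2 := nonneg hH (hz.sub hu).1
  rw [nn_add hH, hzz, huu, hk] at h1
  rw [nn_sub hH, hzz, huu, hk] at h2
  have huz : H.ip u z = 3 * k := (comm hH _ _).trans hk
  have h3 : k ≠ 1 := by
    intro h
    refine hno u (u - z) hu (hu.sub hz) huu ?_ ?_
    · rw [nn_sub hH, hzz, huu, huz, h]; norm_num
    · rw [ip_sub_right, huu, huz, h]; norm_num
  have h4 : k ≠ -1 := by
    intro h
    refine hno u (u + z) hu (hu.add hz) huu ?_ ?_
    · rw [nn_add hH, hzz, huu, huz, h]; norm_num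
    · rw [ip_add_right, huu, huz, h]; norm_num
  omega

theorem vals (hH : IsHodgeLattice H) (hK : ¬ Known H) (hT : Three H) (hno : NoOdd H)
    {z u v : Fin 23 → ℤ} (hz : Pr H z) (hzz : H.ip z z = 6) (hu : Pr H u) (huu : H.ip u u = 4)
    (hv : Pr H v) (hvv : H.ip v v = 4) :
    H.ip u v = -4 ∨ H.ip u v = -2 ∨ H.ip u v = 2 ∨ H.ip u v = 4 := by
  have q1 := pf hH hK hT (hu.add hv) hu.1 (N := 8 + 2 * H.ip u v)
    (by rw [nn_add hH, huu, hvv]; ring) rfl
  have q2 := pf hH hK hT (hu.sub hv) hu.1 (N := 8 - 2 * H.ip u v)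
    (by rw [nn_sub hH, huu, hvv]; ring) rfl
  have n1 : H.ip u v ≠ -1 := by
    intro h
    have := zperp hH hT hno (hu.add hv) (by rw [nn_add hH, huu, hvv, h]; norm_num) hu huu
    rw [ip_add_left, huu, comm hH v u, h] at this
    norm_num at this
  have n2 : H.ip u v ≠ 1 := hno u v hu hv huu hvv
  have n3 : H.ip u v ≠ 0 := by
    intro h
    have := pf hH hK hT ((hu.add hv).add hz) hu.1 (N := 14)
      (by rw [nn_add hH, nn_add hH, huu, hvv, hzz, comm hH (u + v) z, ip_add_right,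
            zperp hH hT hno hz hzz hu huu, zperp hH hT hno hz hzz hv hvv, h]; norm_num) rfl
    exact this.2.2.1 rfl
  obtain ⟨a1, a2, -⟩ := q1
  obtain ⟨b1, b2, -⟩ := q2
  omega

theorem arith2 {a b c : ℤ} (ha : a = -4 ∨ a = -2 ∨ a = 2 ∨ a = 4)
    (hb : b = -4 ∨ b = -2 ∨ b = 2 ∨ b = 4) (hc : c = -4 ∨ c = -2 ∨ c = 2 ∨ c = 4)
    (h1 : a = 4 → c = b) (h2 : a = -4 → c = -b) (h3 : b = 4 → c = a) (h4 : b = -4 → c = -a)
    (h5 : c = 4 → a = b) (h6 : c = -4 → a = -b) (h7 : a = 2 → c - b ≠ 0)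
    (h8 : a = -2 → c + b ≠ 0) : 3 ∣ c - a * b := by
  rcases ha with h | h | h | h <;> subst h <;> rcases hb with h | h | h | h <;> subst h <;>
    rcases hc with h | h | h | h <;> subst h
  all_goals first | (norm_num; done) | omega

theorem even_pairs (hH : IsHodgeLattice H) (hK : ¬ Known H) (hT : Three H) (hno : NoOdd H)
    {z u v w : Fin 23 → ℤ} (hz : Pr H z) (hzz : H.ip z z = 6) (hu : Pr H u) (huu : H.ip u u = 4)
    (hv : Pr H v) (hvv : H.ip v v = 4) (hw : Pr H w) (hww : H.ip w w = 4) :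
    3 ∣ H.ip u w - H.ip u v * H.ip w v := by
  have hval := fun {u v : Fin 23 → ℤ} (hu : Pr H u) (huu : H.ip u u = 4)
    (hv : Pr H v) (hvv : H.ip v v = 4) => vals hH hK hT hno hz hzz hu huu hv hvv
  have ne0 : ∀ {u v : Fin 23 → ℤ}, Pr H u → H.ip u u = 4 → Pr H v → H.ip v v = 4 →
      H.ip u v ≠ 0 := fun hu huu hv hvv => by
    have := hval hu huu hv hvv
    omega
  have eq4 : ∀ {u v : Fin 23 → ℤ} (y : Fin 23 → ℤ), Pr H u → H.ip u u = 4 → Pr H v →
      H.ip v v = 4 → H.ip u v = 4 → H.ip u y = H.ip v y := fun {u v} y hu huu hv hvv h => by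
    have h1 := (pfacts hH hK (hu.sub hv)).2.2.2.2 (by rw [nn_sub hH, huu, hvv, h]; norm_num)
    have := pzero_ip (H := H) h1 y
    rw [ip_sub_left] at this
    linarith
  have eq4' : ∀ {u v : Fin 23 → ℤ} (y : Fin 23 → ℤ), Pr H u → H.ip u u = 4 → Pr H v →
      H.ip v v = 4 → H.ip u v = -4 → H.ip u y = -H.ip v y := fun {u v} y hu huu hv hvv h => by
    have h1 := (pfacts hH hK (hu.add hv)).2.2.2.2 (by rw [nn_add hH, huu, hvv, h]; norm_num)
    have := pzero_ip (H := H) h1 y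
    rw [ip_add_left] at this
    linarith
  refine arith2 (hval hu huu hv hvv) (hval hw hww hv hvv) (hval hu huu hw hww) ?_ ?_ ?_ ?_ ?_ ?_
    ?_ ?_
  · intro h
    rw [eq4 w hu huu hv hvv h, comm hH w v]
  · intro h
    rw [eq4' w hu huu hv hvv h, comm hH w v]
  · intro h
    have := eq4 u hw hww hv hvv h
    rw [comm hH u w, this, comm hH v u]
  · intro h
    have := eq4' u hw hww hv hvv h
    rw [comm hH u w, this, comm hH v u]
  · intro h
    exact eq4 v hu huu hw hww h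
  · intro h
    exact eq4' v hu huu hw hww h
  · intro h
    have := ne0 (hu.sub hv) (by rw [nn_sub hH, huu, hvv, h]; norm_num) hw hww
    rwa [ip_sub_left, comm hH v w] at this
  · intro h
    have := ne0 (hu.add hv) (by rw [nn_add hH, huu, hvv, h]; norm_num) hw hww
    rwa [ip_add_left, comm hH v w] at this

/-- the generators in the second case -/
def S2 (H : H4 X) : Set (Fin 23 → ℤ) :=
  {u | H.IsHodge u ∧ (u = H.h ∨ H.ip u H.h = 0 ∧ (H.ip u u = 4 ∨ H.ip u u = 6))}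

/-- discriminant eight gives a plane -/
theorem disc_ne_eight (hH : IsHodgeLattice H) (hno : ¬ Nonempty X.Plane) {v : Fin 23 → ℤ}
    (hv : H.IsHodge v) : H.disc v ≠ 8 := by
  intro h8
  have key : ∀ u, H.IsHodge u → H.ip u H.h = 1 → H.ip u u = 3 → False := by
    intro u h1 h2 h3
    obtain ⟨P, -⟩ := (hH.cl_range u).2 ⟨h1, h2, h3⟩
    exact hno ⟨P⟩
  obtain ⟨k, r, hk, h⟩ := disc_mod (H := H) v
  have hr : r = 1 ∨ r = -1 := by omega
  have hd : 3 * H.ip v v - (3 * k + r) ^ 2 = 8 := by rw [← hk]; exact h8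
  have hvh : H.ip v H.h = 3 * k + r := (comm hH _ _).trans hk
  rcases hr with h | h
  · subst h
    refine key (v - k • H.h) (H.isHodge_sub hv (H.isHodge_smul _ hH.h_hodge)) ?_ ?_
    · rw [ip_sub_left, ip_smul_left, hH.h_self, hvh]; ring
    · simp only [ip_sub_left, ip_sub_right, ip_smul_left, ip_smul_right, hH.h_self, hvh, hk]
      linarith
  · subst h
    refine key (k • H.h - v) (H.isHodge_sub (H.isHodge_smul _ hH.h_hodge) hv) ?_ ?_
    · rw [ip_sub_left, ip_smul_left, hH.h_self, hvh]; ring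
    · simp only [ip_sub_left, ip_sub_right, ip_smul_left, ip_smul_right, hH.h_self, hvh, hk]
      linarith

theorem gen_S2 (hH : IsHodgeLattice H) (hK : ¬ Known H) (hno : ¬ Nonempty X.Plane)
    (hgen : Generated H 18) {v : Fin 23 → ℤ} (hv : H.IsHodge v) :
    ∃ n : ℤ, IsCoprime n 6 ∧ n • v ∈ Submodule.span ℤ (S2 H) := by
  have hh : H.h ∈ Submodule.span ℤ (S2 H) :=
    Submodule.subset_span ⟨hH.h_hodge, Or.inl rfl⟩
  have h1 : {w | H.IsHodge w ∧ H.disc w ≤ 18} ⊆ (Submodule.span ℤ (S2 H) : Set (Fin 23 → ℤ)) := by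
    rintro w ⟨hw, hle⟩
    obtain ⟨f1, ⟨c, f2⟩, f3, f4, f5, f6, f7, f8, f9⟩ := facts hH hK hw
    have f10 := disc_ne_eight hH hno hw
    obtain ⟨k, r, hk, h⟩ := disc_mod (H := H) w
    have hr : r = 0 := by omega
    rw [hr, add_zero] at hk
    have hwh : H.ip w H.h = 3 * k := (comm hH _ _).trans hk
    have hu : Pr H (w - k • H.h) := by
      refine ⟨H.isHodge_sub hw (H.isHodge_smul _ hH.h_hodge), ?_⟩
      rw [ip_sub_left, ip_smul_left, hH.h_self, hwh]; ring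
    have hd : 3 * H.ip (w - k • H.h) (w - k • H.h) = H.disc w := by
      simp only [disc, ip_sub_left, ip_sub_right, ip_smul_left, ip_smul_right, hH.h_self, hwh, hk]
      ring
    have hw' : w = (w - k • H.h) + k • H.h := by abel
    obtain ⟨g1, ⟨_, g2⟩, g3, g4, g5⟩ := pfacts hH hK hu
    have hmem : w - k • H.h ∈ Submodule.span ℤ (S2 H) := by
      have hcases : H.ip (w - k • H.h) (w - k • H.h) = 0 ∨
          H.ip (w - k • H.h) (w - k • H.h) = 4 ∨ H.ip (w - k • H.h) (w - k • H.h) = 6 := by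
        omega
      rcases hcases with h | h | h
      · rw [g5 h]; exact Submodule.zero_mem _
      · exact Submodule.subset_span ⟨hu.1, Or.inr ⟨hu.2, Or.inl h⟩⟩
      · exact Submodule.subset_span ⟨hu.1, Or.inr ⟨hu.2, Or.inr h⟩⟩
    rw [SetLike.mem_coe, hw']
    exact Submodule.add_mem _ hmem (Submodule.smul_mem _ _ hh)
  obtain ⟨n, hn, hnv⟩ := hgen v hv
  exact ⟨n, hn, (Submodule.span_le.2 h1) hnv⟩

/-- **The case without planes.** -/
theorem scroll_case (hH : IsHodgeLattice H) (hK : ¬ Known H) (hno : ¬ Nonempty X.Plane)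
    (hgen : Generated H 18) :
    ((∀ u v, H.IsHodge u → H.IsHodge v → 2 ∣ bb H u v) ∧ ∀ u, H.IsHodge u → 4 ∣ H.disc u) ∨
    ((∀ u, H.IsHodge u → 3 ∣ H.ip H.h u) ∧
      ∃ c, ∀ u v, H.IsHodge u → H.IsHodge v → 3 ∣ H.ip u v - H.ip u c * H.ip v c) := by
  have hg := fun {v : Fin 23 → ℤ} (hv : H.IsHodge v) => gen_S2 hH hK hno hgen hv
  by_cases hz : ∃ z, Pr H z ∧ H.ip z z = 6
  · right
    obtain ⟨z, hz, hzz⟩ := hz
    have h3 : ∀ u, H.IsHodge u → 3 ∣ H.ip H.h u := by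
      intro u hu
      obtain ⟨n, hn, hnu⟩ := hg hu
      suffices h : 3 ∣ H.ip H.h (n • u) by
        rw [ip_smul_right] at h
        exact dvd_of_mul hn (by norm_num) h
      refine Submodule.span_induction (p := fun u _ => 3 ∣ H.ip H.h u) ?_ ?_ ?_ ?_ hnu
      · rintro u ⟨-, h | h⟩
        · rw [h, hH.h_self]
        · rw [comm hH, h.1]; exact dvd_zero _
      · rw [ip_zero_right]; exact dvd_zero _
      · intro a b _ _ ha hb
        rw [ip_add_right]; exact dvd_add ha hb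
      · intro a b _ hb
        rw [ip_smul_right]; exact hb.mul_left _
    have hT : Three H := by
      intro z hz hzz y hy
      obtain ⟨k, hk⟩ := h3 y hy
      have hyh : H.ip y H.h = 3 * k := (comm hH _ _).trans hk
      have h1 : Pr H (y - k • H.h) :=
        ⟨H.isHodge_sub hy (H.isHodge_smul _ hH.h_hodge), by
          rw [ip_sub_left, ip_smul_left, hH.h_self, hyh]; ring⟩
      have h2 : 3 ∣ H.ip (y - k • H.h) z := by
        by_contra hcon
        exact hK (Or.inr (Or.inr ⟨z, y - k • H.h, hz.1, h1.1, hz.2, h1.2, hzz, hcon⟩))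
      rw [ip_sub_left, ip_smul_left, comm hH H.h z, hz.2, mul_zero, sub_zero, comm hH] at h2
      exact h2
    refine ⟨h3, ?_⟩
    -- reduction to the generators
    have red : ∀ c, (∀ u ∈ S2 H, ∀ v ∈ S2 H, 3 ∣ H.ip u v - H.ip u c * H.ip v c) →
        ∀ u v, H.IsHodge u → H.IsHodge v → 3 ∣ H.ip u v - H.ip u c * H.ip v c := by
      intro c h u v hu hv
      obtain ⟨n, hn, hnu⟩ := hg hu
      obtain ⟨m, hm, hmv⟩ := hg hv
      suffices h' : 3 ∣ H.ip (n • u) (m • v) - H.ip (n • u) c * H.ip (m • v) c by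
        simp only [ip_smul_left, ip_smul_right] at h'
        have h5 : n * (m * (H.ip u v - H.ip u c * H.ip v c)) =
            m * (n * H.ip u v) - n * H.ip u c * (m * H.ip v c) := by ring
        rw [← h5] at h'
        exact dvd_of_mul hm (by norm_num) (dvd_of_mul hn (by norm_num) h')
      refine dvd_of_span (f := fun u v => H.ip u v - H.ip u c * H.ip v c) ?_ ?_ ?_ h hnu hmv
      · intro a b d
        simp only [ip_add_left]; ring
      · intro a b d
        simp only [ip_smul_left]; ring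
      · intro a b
        simp only [comm hH b a]; ring
    -- generators which are not of square four
    have easy : ∀ c, Pr H c → ∀ u ∈ S2 H, H.ip u u ≠ 4 → ∀ v ∈ S2 H,
        3 ∣ H.ip u v - H.ip u c * H.ip v c := by
      rintro c hc u ⟨hu, h⟩ hne v ⟨hv, -⟩
      rcases h with h | ⟨h1, h | h⟩
      · rw [h, comm hH H.h c, hc.2, zero_mul, sub_zero]
        exact h3 v hv
      · exact absurd h hne
      · exact dvd_sub (hT u ⟨hu, h1⟩ h v hv) ((hT u ⟨hu, h1⟩ h c hc.1).mul_right _)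
    have four : ∀ u ∈ S2 H, H.ip u u = 4 → Pr H u := by
      rintro u ⟨hu, h | h⟩ h4
      · rw [h, hH.h_self] at h4
        norm_num at h4
      · exact ⟨hu, h.1⟩
    by_cases hodd : NoOdd H
    · by_cases h4 : ∃ v, Pr H v ∧ H.ip v v = 4
      · obtain ⟨v, hv, hvv⟩ := h4
        refine ⟨v, red v fun u hu w hw => ?_⟩
        by_cases hu4 : H.ip u u = 4
        · by_cases hw4 : H.ip w w = 4
          · exact even_pairs hH hK hT hodd hz hzz (four u hu hu4) hu4 hv hvv (four w hw hw4) hw4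
          · have := easy v hv w hw hw4 u hu
            rwa [comm hH w u, mul_comm] at this
        · exact easy v hv u hu hu4 w hw
      · refine ⟨0, red 0 fun u hu w hw => ?_⟩
        have h0 : Pr H 0 := ⟨H.isHodge_zero, ip_zero_left H _⟩
        exact easy 0 h0 u hu (fun h => h4 ⟨u, four u hu h, h⟩) w hw
    · unfold NoOdd at hodd
      push Not at hodd
      obtain ⟨v, w, hv, hw, hvv, hww, hvw⟩ := hodd
      refine ⟨v, red v fun u hu y hy => ?_⟩
      by_cases hu4 : H.ip u u = 4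
      · exact odd_pair hH hK hT hv hw hvv hww hvw (four u hu hu4) hu4 hy.1
      · exact easy v hv u hu hu4 y hy
  · left
    have key : ∀ u ∈ S2 H, ∀ v ∈ S2 H, 2 ∣ bb H u v := by
      rintro u ⟨hu, hu'⟩ v ⟨hv, hv'⟩
      rcases hu' with hu' | ⟨hu1, hu'⟩
      · rw [hu', bb, hH.h_self]
        simp
      rcases hv' with hv' | ⟨hv1, hv'⟩
      · rw [hv', bb, hH.h_self, comm hH H.h u, hu1]
        simp
      have hu4 : H.ip u u = 4 := by
        rcases hu' with h | h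
        · exact h
        · exact absurd ⟨u, ⟨hu, hu1⟩, h⟩ hz
      have hv4 : H.ip v v = 4 := by
        rcases hv' with h | h
        · exact h
        · exact absurd ⟨v, ⟨hv, hv1⟩, h⟩ hz
      have hpu : Pr H u := ⟨hu, hu1⟩
      have hpv : Pr H v := ⟨hv, hv1⟩
      obtain ⟨a1, -, a3, -⟩ := pfacts hH hK (hpu.add hpv)
      obtain ⟨b1, -, b3, -⟩ := pfacts hH hK (hpu.sub hpv)
      have c1 : H.ip (u + v) (u + v) ≠ 6 := fun h => hz ⟨_, hpu.add hpv, h⟩
      have c2 : H.ip (u - v) (u - v) ≠ 6 := fun h => hz ⟨_, hpu.sub hpv, h⟩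
      rw [nn_add hH, hu4, hv4] at a1 a3 c1
      rw [nn_sub hH, hu4, hv4] at b1 b3 c2
      rw [bb, comm hH H.h u, hu1, zero_mul, sub_zero]
      omega
    have key4 : ∀ u ∈ S2 H, 4 ∣ H.disc u := by
      rintro u ⟨hu, hu'⟩
      rcases hu' with hu' | ⟨hu1, hu'⟩
      · rw [hu', disc, hH.h_self]; norm_num
      have hu4 : H.ip u u = 4 := by
        rcases hu' with h | h
        · exact h
        · exact absurd ⟨u, ⟨hu, hu1⟩, h⟩ hz
      rw [disc, comm hH H.h u, hu1, hu4]; norm_num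
    refine ⟨fun u v hu hv => ?_, fun u hu => ?_⟩
    · obtain ⟨n, hn, hnu⟩ := hg hu
      obtain ⟨m, hm, hmv⟩ := hg hv
      have h5 := dvd_of_span (f := bb H) bb_add bb_smul (bb_comm hH) key hnu hmv
      rw [bb_smul, bb_comm hH u, bb_smul, bb_comm hH v] at h5
      exact dvd_of_mul hm (by norm_num) (dvd_of_mul hn (by norm_num) h5)
    · obtain ⟨n, hn, hnu⟩ := hg hu
      have h5 := four_of_span hH key key4 hnu
      rw [disc_smul] at h5
      exact four_dvd_of_mul hn h5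

end Pool.Agent.L0h18.CF
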