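import Pool.Agent.L0h18.CF.Rank

/-!
# Cubic fourfolds with many classes of square six
-/

set_option autoImplicit false

namespace Pool.Agent.L0h18.CF

open Pool.Agent.Y95.Q Pool.Agent.Y95.Q.H4 Finset Module

variable {X : CubicFourfold} {H : H4 X}

/-- a class of square six and a class with a product prime to three with it or with `h` -/
theorem hasK3_of_six' (hH : IsHodgeLattice H) {z T : Fin 23 → ℤ} (hz : H.IsHodge z)
    (hT : H.IsHodge T) (hzh : H.ip z H.h = 0) (hzz : H.ip z z = 6)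
    (hTz : ¬ (3 ∣ H.ip T H.h ∧ 3 ∣ H.ip T z)) : H.HasK3 := by
  -- half of the discriminant of `T`
  obtain ⟨s, hs⟩ := disc_even hH T
  set a := H.ip T H.h with ha
  set b := H.ip T z with hb
  have hha : H.ip H.h T = a := comm hH _ _
  have hdT : H.disc T = 3 * H.ip T T - a ^ 2 := by rw [disc, hha]
  have hdisc : ∀ m n : ℤ, H.disc (m • z + n • T) = 2 * (9 * m ^ 2 + 3 * b * (m * n) + s * n ^ 2) := by
    intro m n
    have h1 : H.ip H.h z = 0 := (comm hH _ _).trans hzh
    have h3 : H.ip z T = b := comm hH _ _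
    have h4 : 3 * H.ip T T - a ^ 2 = 2 * s := by rw [← hdT, hs]
    simp only [disc, ip_add_left, ip_add_right, ip_smul_left, ip_smul_right, hzz, h1, h3,
      hha, ← hb]
    linear_combination n ^ 2 * h4
  have hmem : ∀ m n : ℤ, H.IsHodge (m • z + n • T) := fun m n =>
    H.isHodge_add (H.isHodge_smul _ hz) (H.isHodge_smul _ hT)
  -- `s ≡ a ^ 2` modulo three
  have hs3 : (s - a ^ 2) % 3 = 0 := by
    have h4 : 3 * H.ip T T - a ^ 2 = 2 * s := by rw [← hdT, hs]
    generalize a ^ 2 = a2 at h4 ⊢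
    omega
  have hsq : ∀ y : ℤ, y ^ 2 % 3 = 0 ∧ y % 3 = 0 ∨ y ^ 2 % 3 = 1 ∧ (y % 3 = 1 ∨ y % 3 = 2) := by
    intro y
    have : y % 3 = 0 ∨ y % 3 = 1 ∨ y % 3 = 2 := by omega
    rcases this with h | h | h
    · left; exact ⟨by rw [pow_two, Int.mul_emod, h]; norm_num, h⟩
    · right; exact ⟨by rw [pow_two, Int.mul_emod, h]; norm_num, Or.inl h⟩
    · right; exact ⟨by rw [pow_two, Int.mul_emod, h]; norm_num, Or.inr h⟩
  -- `b = k + e`, `k ^ 2 ≡ s` modulo three
  obtain ⟨k, e, hbk, he, g, hg⟩ : ∃ k e : ℤ, b = k + e ∧ (e = 1 ∨ e = -1) ∧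
      ∃ g, s = k ^ 2 - 3 * g := by
    have key : ∀ e : ℤ, (e = 1 ∨ e = -1) → ((b - e) ^ 2 - a ^ 2) % 3 = 0 → ∃ k e : ℤ, b = k + e ∧
        (e = 1 ∨ e = -1) ∧ ∃ g, s = k ^ 2 - 3 * g := by
      intro e he h
      refine ⟨b - e, e, by ring, he, ((b - e) ^ 2 - s) / 3, ?_⟩
      generalize (b - e) ^ 2 = x at h ⊢
      generalize a ^ 2 = y at h hs3
      omega
    have h1 := hsq a
    have h2 := hsq (b - 1)
    have h3 := hsq (b - -1)
    have h4 : ((b - 1) ^ 2 - a ^ 2) % 3 = 0 ∨ ((b - -1) ^ 2 - a ^ 2) % 3 = 0 := by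
      generalize a ^ 2 = a2 at h1 ⊢
      generalize (b - 1) ^ 2 = x at h2 ⊢
      generalize (b - -1) ^ 2 = y at h3 ⊢
      omega
    rcases h4 with h | h
    · exact key 1 (Or.inl rfl) h
    · exact key (-1) (Or.inr rfl) h
  have hcop : ∀ r : ℤ, IsCoprime (2 * r + 1) 2 := fun r => ⟨1, -r, by ring⟩
  rcases Int.even_or_odd' k with ⟨q, hq | hq⟩
  · obtain ⟨w, hw⟩ := Int.even_mul_succ_self q
    have hw' : q ^ 2 = 2 * w - q := by linear_combination hw
    rcases Int.even_or_odd' g with ⟨t, ht | ht⟩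
    · rcases he with he | he
      · refine hasK3_of_rep hH (hmem (q ^ 2 - q - 1 - 2 * t) 2)
          (x := 3 * q ^ 2 - q - 1 - 6 * t) (y := 2) ?_ ?_
        · rw [hdisc, hbk, he, hg, hq, ht]
          ring
        · have h1 := hcop (3 * w - 2 * q - 3 * t - 1)
          have h2 : 2 * (3 * w - 2 * q - 3 * t - 1) + 1 = 3 * q ^ 2 - q - 1 - 6 * t := by
            rw [hw']; ring
          rwa [h2] at h1
      · refine hasK3_of_rep hH (hmem (-q ^ 2 - q + 1 + 2 * t) 2)
          (x := -3 * q ^ 2 - q - 1 + 6 * t) (y := 2) ?_ ?_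
        · rw [hdisc, hbk, he, hg, hq, ht]
          ring
        · have h1 := hcop (-3 * w + q + 3 * t - 1)
          have h2 : 2 * (-3 * w + q + 3 * t - 1) + 1 = -3 * q ^ 2 - q - 1 + 6 * t := by
            rw [hw']; ring
          rwa [h2] at h1
    · rcases he with he | he
      · refine hasK3_of_rep hH (hmem (-q ^ 2 + 2 + 2 * t) 1)
          (x := -3 * q ^ 2 + q + 5 + 6 * t) (y := 2) ?_ ?_
        · rw [hdisc, hbk, he, hg, hq, ht]
          ring
        · have h1 := hcop (-3 * w + 2 * q + 3 * t + 2)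
          have h2 : 2 * (-3 * w + 2 * q + 3 * t + 2) + 1 = -3 * q ^ 2 + q + 5 + 6 * t := by
            rw [hw']; ring
          rwa [h2] at h1
      · refine hasK3_of_rep hH (hmem (q ^ 2 - 2 - 2 * t) 1)
          (x := 3 * q ^ 2 + q - 7 - 6 * t) (y := 2) ?_ ?_
        · rw [hdisc, hbk, he, hg, hq, ht]
          ring
        · have h1 := hcop (3 * w - q - 3 * t - 4)
          have h2 : 2 * (3 * w - q - 3 * t - 4) + 1 = 3 * q ^ 2 + q - 7 - 6 * t := by
            rw [hw']; ring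
          rwa [h2] at h1
  · rcases he with he | he
    · refine hasK3_of_rep hH (hmem (q ^ 2 - k * q + g) 1) (x := 3 * (q ^ 2 - k * q + g) + q) (y := 1)
        ?_ isCoprime_one_right
      rw [hdisc, hbk, he, hg, hq]
      ring
    · refine hasK3_of_rep hH (hmem (-(q ^ 2 - k * q + g)) 1)
        (x := 3 * (-(q ^ 2 - k * q + g)) + q) (y := 1) ?_ isCoprime_one_right
      rw [hdisc, hbk, he, hg, hq]
      ring

/-- **The count modulo three.** -/
theorem count_three (hH : IsHodgeLattice H) {Z : Type} [Fintype Z] {f : Z → Fin 23 → ℤ}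
    (h3 : ∀ T, H.IsHodge T → 3 ∣ H.ip T H.h) (hf : ∀ z, H.IsHodge (f z))
    (hfh : ∀ z, H.ip (f z) H.h = 0) (hfT : ∀ z T, H.IsHodge T → 3 ∣ H.ip T (f z))
    (hinj : ∀ z z' a, H.IsHodge a → f z - f z' = (3 : ℤ) • a → z = z') :
    3 * Fintype.card Z ≤ 3 ^ (23 - H.rank) := by
  classical
  have hp3 : Fact (Nat.Prime 3) := ⟨Nat.prime_three⟩
  let b := Module.finBasis ℤ (hodge H)
  let R : Matrix (Fin (finrank ℤ (hodge H))) (Fin 23) (ZMod 3) :=
    fun k => redp 3 (b k : Fin 23 → ℤ)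
  let Bm : Matrix (Fin 23) (Fin 23) (ZMod 3) := H.B.map (Int.castRingHom (ZMod 3))
  have hRrank : R.rank = finrank ℤ (hodge H) := by
    have h1 : R.rank = Fintype.card (Fin (finrank ℤ (hodge H))) :=
      LinearIndependent.rank_matrix (basis_indep 3 b)
    rw [h1, Fintype.card_fin]
  have hker : finrank (ZMod 3) (LinearMap.ker R.mulVecLin) = 23 - H.rank := by
    have h1 := LinearMap.finrank_range_add_finrank_ker R.mulVecLin
    have h2 : finrank (ZMod 3) (LinearMap.range R.mulVecLin) = finrank ℤ (hodge H) := hRrank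
    rw [h2, finrank_fin_fun] at h1
    rw [rank_eq]
    omega
  have hBdet : IsUnit Bm.det := by
    have h1 : Bm.det = (Int.castRingHom (ZMod 3)) H.B.det := by
      rw [RingHom.map_det]
      rfl
    rw [h1]
    exact hH.unimodular.map _
  have hBinj : Function.Injective Bm.mulVec := by
    rw [Matrix.mulVec_injective_iff_isUnit, Matrix.isUnit_iff_isUnit_det]
    exact hBdet
  obtain ⟨g, hg⟩ : ∃ g : Z × Fin 3 → Fin 23 → ℤ, ∀ x, g x = f x.1 + ((x.2 : ℕ) : ℤ) • H.h :=
    ⟨_, fun x => rfl⟩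
  have hgH : ∀ x, H.IsHodge (g x) := fun x => by
    rw [hg]
    exact H.isHodge_add (hf _) (H.isHodge_smul _ hH.h_hodge)
  have hg3 : ∀ x T, H.IsHodge T → (3 : ℤ) ∣ H.ip T (g x) := fun x T hT => by
    rw [hg, ip_add_right, ip_smul_right]
    exact dvd_add (hfT _ T hT) ((h3 T hT).mul_left _)
  have hmem : ∀ x, Bm.mulVec (redp 3 (g x)) ∈ LinearMap.ker R.mulVecLin := by
    intro x
    rw [LinearMap.mem_ker]
    ext j
    have h1 : ((H.ip (b j : Fin 23 → ℤ) (g x) : ℤ) : ZMod 3) = 0 := by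
      rw [ZMod.intCast_zmod_eq_zero_iff_dvd]
      exact_mod_cast hg3 x _ (b j).2
    refine Eq.trans ?_ h1
    change ∑ x', ((b j : Fin 23 → ℤ) x' : ZMod 3) *
      ∑ y, ((H.B x' y : ℤ) : ZMod 3) * (g x y : ZMod 3) = _
    simp only [ip, Int.cast_sum, Int.cast_mul, mul_sum, mul_assoc]
  have hdiff : ∀ x y a, g x - g y = ((3 : ℕ) : ℤ) • a → x = y := by
    intro x y a ha
    have haH : H.IsHodge a := by
      refine H.isHodge_of_smul (n := ((3 : ℕ) : ℤ)) (by norm_num) ?_
      rw [← ha]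
      exact H.isHodge_sub (hgH x) (hgH y)
    have h4 : g x - g y = f x.1 - f y.1 + (((x.2 : ℕ) : ℤ) - ((y.2 : ℕ) : ℤ)) • H.h := by
      rw [hg, hg]
      module
    have h5 : ((x.2 : ℕ) : ℤ) - ((y.2 : ℕ) : ℤ) = H.ip a H.h := by
      have h6 : H.ip (g x - g y) H.h = 3 * H.ip a H.h := by
        rw [ha, ip_smul_left]; norm_num
      rw [h4, ip_add_left, ip_sub_left, hfh, hfh, ip_smul_left, hH.h_self] at h6
      linarith
    have h7 : x.2 = y.2 := by
      have h8 := h3 a haH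
      rw [← h5] at h8
      have h9 := x.2.isLt
      have h10 := y.2.isLt
      exact Fin.ext (by omega)
    have h8 : x.1 = y.1 := by
      refine hinj _ _ a haH ?_
      rw [h4, h7, sub_self, zero_smul, add_zero] at ha
      exact_mod_cast ha
    exact Prod.ext h8 h7
  obtain ⟨φ, hφv⟩ : ∃ φ : Z × Fin 3 → LinearMap.ker R.mulVecLin,
      ∀ x, (φ x : Fin 23 → ZMod 3) = Bm.mulVec (redp 3 (g x)) :=
    ⟨fun x => ⟨_, hmem x⟩, fun x => rfl⟩
  have hφ : Function.Injective φ := by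
    intro x y hxy
    have h0 : Bm.mulVec (redp 3 (g x)) = Bm.mulVec (redp 3 (g y)) := by
      rw [← hφv, ← hφv, hxy]
    have h1 : redp 3 (g x) = redp 3 (g y) := hBinj h0
    have h2 : redp 3 (g x - g y) = 0 := by rw [map_sub, h1, sub_self]
    obtain ⟨a, ha⟩ := exists_div 3 h2
    exact hdiff x y a ha
  have hfin : Finite (LinearMap.ker R.mulVecLin) := Finite.of_injective
    (Subtype.val : LinearMap.ker R.mulVecLin → (Fin 23 → ZMod 3)) Subtype.val_injective
  have hcard : Nat.card (LinearMap.ker R.mulVecLin) = 3 ^ (23 - H.rank) := by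
    rw [Module.natCard_eq_pow_finrank (K := ZMod 3), hker, Nat.card_zmod]
  have h1 := Nat.card_le_card_of_injective φ hφ
  rw [hcard, Nat.card_eq_fintype_card, Fintype.card_prod, Fintype.card_fin] at h1
  omega

/-- the criterion for the class `18`, with the class `2 h + z` of the fibres -/
def Known18 (H : H4 X) : Prop :=
  ∃ z T, H.IsHodge z ∧ H.IsHodge T ∧ H.ip z H.h = 0 ∧ H.ip z z = 6 ∧
    ¬ 3 ∣ H.ip T ((2 : ℤ) • H.h + z)

/-- **Many classes of square six.** -/
theorem many_six (hH : IsHodgeLattice H)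
    (hN : 3 ^ (22 - H.rank) ≤ Nat.card {z // H.IsHodge z ∧ H.ip z H.h = 0 ∧ H.ip z z = 6}) :
    Known18 H := by
  classical
  by_contra hK
  have hpos : 0 < Nat.card {z // H.IsHodge z ∧ H.ip z H.h = 0 ∧ H.ip z z = 6} :=
    lt_of_lt_of_le (by positivity) hN
  have hfin : Finite {z // H.IsHodge z ∧ H.ip z H.h = 0 ∧ H.ip z z = 6} :=
    Nat.finite_of_card_ne_zero hpos.ne'
  have := Fintype.ofFinite {z // H.IsHodge z ∧ H.ip z H.h = 0 ∧ H.ip z z = 6}
  have h2 : ∀ z T, H.IsHodge z → H.IsHodge T → H.ip z H.h = 0 → H.ip z z = 6 →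
      3 ∣ H.ip T H.h ∧ 3 ∣ H.ip T z := by
    intro z T hz hT h1 h2
    have h4 : 3 ∣ H.ip T ((2 : ℤ) • H.h + z) := by
      by_contra hcon
      exact hK ⟨z, T, hz, hT, h1, h2, hcon⟩
    have h5 : 3 ∣ H.ip T ((2 : ℤ) • H.h + -z) := by
      by_contra hcon
      refine hK ⟨-z, T, H.isHodge_neg hz, hT, ?_, ?_, hcon⟩
      · rw [ip_neg_left, h1, neg_zero]
      · rw [ip_neg_left, ip_neg_right, h2, neg_neg]
    rw [ip_add_right, ip_smul_right] at h4 h5
    rw [ip_neg_right] at h5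
    omega
  obtain ⟨⟨z0, hz0, hz1, hz2⟩⟩ : Nonempty {z // H.IsHodge z ∧ H.ip z H.h = 0 ∧ H.ip z z = 6} :=
    (Nat.card_pos_iff.1 hpos).1
  have h3 : ∀ T, H.IsHodge T → 3 ∣ H.ip T H.h := fun T hT => (h2 z0 T hz0 hT hz1 hz2).1
  let f : Option {z // H.IsHodge z ∧ H.ip z H.h = 0 ∧ H.ip z z = 6} → Fin 23 → ℤ :=
    fun o => o.elim 0 Subtype.val
  have hf : ∀ o, H.IsHodge (f o) ∧ H.ip (f o) H.h = 0 ∧
      (H.ip (f o) (f o) = 0 ∨ H.ip (f o) (f o) = 6) ∧ ∀ T, H.IsHodge T → 3 ∣ H.ip T (f o) := by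
    rintro (_ | ⟨z, hz⟩)
    · exact ⟨H.isHodge_zero, ip_zero_left H _, Or.inl (ip_zero_left H _), fun T _ => by
        change 3 ∣ H.ip T 0
        rw [ip_zero_right]; exact dvd_zero _⟩
    · exact ⟨hz.1, hz.2.1, Or.inr hz.2.2, fun T hT => (h2 z T hz.1 hT hz.2.1 hz.2.2).2⟩
  have hfval : ∀ o o', f o = f o' → o = o' := by
    rintro (_ | ⟨z, hz⟩) (_ | ⟨z', hz'⟩) h
    · rfl
    · have : (0 : Fin 23 → ℤ) = z' := h
      rw [← this] at hz'
      have := hz'.2.2
      rw [ip_zero_left] at this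
      norm_num at this
    · have : z = 0 := h
      rw [this] at hz
      have := hz.2.2
      rw [ip_zero_left] at this
      norm_num at this
    · have : z = z' := h
      subst this
      rfl
  have hcount := count_three hH (f := f) h3 (fun o => (hf o).1) (fun o => (hf o).2.1)
    (fun o => (hf o).2.2.2) (by
      intro o o' a ha h
      apply hfval
      obtain ⟨a1, a2, a3, -⟩ := hf o
      obtain ⟨b1, b2, b3, -⟩ := hf o'
      have c1 := nn_sub hH (f o) (f o')
      have c2 := nn_add hH (f o) (f o')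
      have c3 := nonneg hH (H.isHodge_add a1 b1)
      have c4 : H.ip (f o - f o') (f o - f o') = 9 * H.ip a a := by
        rw [h]
        simp only [ip_smul_left, ip_smul_right]
        ring
      have c5 : H.ip a H.h = 0 := by
        have h6 : H.ip (f o - f o') H.h = 3 * H.ip a H.h := by rw [h, ip_smul_left]
        rw [ip_sub_left, a2, b2] at h6
        linarith
      obtain ⟨c, hc⟩ := hH.char a
      rw [c5] at hc
      have c6 := hH.disc_six a ha c5
      have c7 := nonneg hH ha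
      have c8 : H.ip a a = 0 := by omega
      have c9 : a = 0 := by
        by_contra hne
        exact absurd (hH.pos a ha hne) (by omega)
      rw [c9, smul_zero] at h
      exact sub_eq_zero.1 h)
  rw [Fintype.card_option, ← Nat.card_eq_fintype_card] at hcount
  by_cases hr : H.rank ≤ 22
  · have h5 : 3 ^ (23 - H.rank) = 3 * 3 ^ (22 - H.rank) := by
      rw [← pow_succ']
      congr 1
      omega
    rw [h5] at hcount
    omega
  · have h5 : 23 - H.rank = 0 := by omega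
    rw [h5, pow_zero] at hcount
    omega

theorem hasK3_of_known18 (hH : IsHodgeLattice H) (h : Known18 H) : H.HasK3 := by
  obtain ⟨z, T, hz, hT, h1, h2, h3⟩ := h
  refine hasK3_of_six' hH hz hT h1 h2 fun h4 => h3 ?_
  rw [ip_add_right, ip_smul_right]
  exact dvd_add (h4.1.mul_left _) h4.2

end Pool.Agent.L0h18.CF
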